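import Mathlib

/-! # Theorem ZK: free arithmetical monoids

`P` is a set of primes, the elements are `a : P →₀ ℕ` (written additively), with norm
`∏ x, N x ^ a x`. For a number field, `P` is the set of nonzero prime ideals. -/

open Finset

namespace MP60829e.ZK

/-- the norm of an element -/
def nn {P : Type} (N : P → ℕ) (a : P →₀ ℕ) : ℕ := a.prod fun x k => N x ^ k

/-- The data: `N x = pr x ^ f x` with a prime number `pr x`, at most `d` primes over each prime number,
at most `A * B` elements of norm at most `B`. -/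
structure Ar (P : Type) where
  N : P → ℕ
  pr : P → ℕ
  f : P → ℕ
  d : ℕ
  A : ℕ
  prime_pr : ∀ x, (pr x).Prime
  f_pos : ∀ x, 1 ≤ f x
  N_eq : ∀ x, N x = pr x ^ f x
  over_le : ∀ (q : ℕ) (s : Finset P), (∀ x ∈ s, pr x = q) → s.card ≤ d
  fin : ∀ B : ℕ, {a : P →₀ ℕ | nn N a ≤ B}.Finite
  card_le : ∀ B : ℕ, 1 ≤ B → {a : P →₀ ℕ | nn N a ≤ B}.ncard ≤ A * B

theorem nn_zero {P : Type} (N : P → ℕ) : nn N 0 = 1 := by
  unfold nn
  exact Finsupp.prod_zero_index

theorem nn_add {P : Type} (N : P → ℕ) (a b : P →₀ ℕ) : nn N (a + b) = nn N a * nn N b := by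
  classical
  unfold nn
  exact Finsupp.prod_add_index' (fun _ => pow_zero _) (fun _ _ _ => pow_add _ _ _)

theorem nn_single {P : Type} (N : P → ℕ) (x : P) (k : ℕ) : nn N (Finsupp.single x k) = N x ^ k := by
  unfold nn
  exact Finsupp.prod_single_index (pow_zero _)

namespace Ar

variable {P : Type} (𝔸 : Ar P)

theorem two_le (x : P) : 2 ≤ 𝔸.N x := by
  rw [𝔸.N_eq]
  exact ((𝔸.prime_pr x).two_le).trans (Nat.le_self_pow (by have := 𝔸.f_pos x; omega) _)

theorem pr_le (x : P) : 𝔸.pr x ≤ 𝔸.N x := by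
  rw [𝔸.N_eq]
  exact Nat.le_self_pow (by have := 𝔸.f_pos x; omega) _

theorem nn_pos (a : P →₀ ℕ) : 0 < nn 𝔸.N a := by
  unfold nn
  exact Finset.prod_pos fun x _ => Nat.pow_pos (by have := 𝔸.two_le x; omega)

/-- the elements of norm at most `B` -/
noncomputable def el (B : ℕ) : Finset (P →₀ ℕ) := (𝔸.fin B).toFinset

theorem mem_el {B : ℕ} {a : P →₀ ℕ} : a ∈ 𝔸.el B ↔ nn 𝔸.N a ≤ B := by
  unfold el
  rw [Set.Finite.mem_toFinset]
  exact Iff.rfl

theorem card_el {B : ℕ} (hB : 1 ≤ B) : (𝔸.el B).card ≤ 𝔸.A * B := by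
  unfold el
  rw [← Set.ncard_eq_toFinset_card _ (𝔸.fin B)]
  exact 𝔸.card_le B hB

/-- the number of primes of norm at least `s` in the support -/
noncomputable def om (s : ℕ) (a : P →₀ ℕ) : ℕ := (a.support.filter (fun x => s ≤ 𝔸.N x)).card

/-- the elements of norm at most `B` with fewer than `r` primes of norm at least `s` -/
noncomputable def Sm (s r B : ℕ) : Finset (P →₀ ℕ) := (𝔸.el B).filter (fun a => 𝔸.om s a < r)

end Ar

/-- `X` contains no box of primes with `r` sides of size `t`. -/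
def GridFree {P : Type} (r t : ℕ) (X : Set (P →₀ ℕ)) : Prop :=
  ∀ m : P →₀ ℕ, ∀ q : Fin r → Fin t → P, (∀ i, Function.Injective (q i)) →
    ∃ c : Fin r → Fin t, m + ∑ i, Finsupp.single (q i (c i)) 1 ∉ X

end MP60829e.ZK
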