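import Mathlib
import Pool.Agent.Lib.MP_60829e_nt.ZK.Ar
import Pool.Agent.Lib.MP_60829e_nt.Rate.Few

/-! # Theorem ZK: sets closed under divisors -/

open Finset ArithmeticFunction

namespace MP60829e.ZK

/-- Sums over primes, grouped by the prime number below. -/
theorem over_sum {P : Type} (𝔸 : Ar P) (W : Finset P) (g : ℕ → ℝ) (hg : ∀ n, 0 ≤ g n) :
    ∑ x ∈ W, g (𝔸.pr x) ≤ 𝔸.d * ∑ p ∈ W.image 𝔸.pr, g p := by
  classical
  rw [Finset.sum_comp g 𝔸.pr, Finset.mul_sum]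
  refine Finset.sum_le_sum fun p _ => ?_
  rw [nsmul_eq_mul]
  refine mul_le_mul_of_nonneg_right ?_ (hg p)
  have h := 𝔸.over_le p (W.filter fun a => 𝔸.pr a = p) (fun x hx => (Finset.mem_filter.1 hx).2)
  exact_mod_cast h

/-- The Chebyshev function. -/
theorem psiK_le {P : Type} (𝔸 : Ar P) (W : Finset P) (K y : ℕ) :
    ∑ x ∈ W, ∑ k ∈ Icc 1 K, (if 𝔸.N x ^ k ≤ y then Real.log (𝔸.N x) else 0) ≤ 6 * 𝔸.d * y := by
  classical
  have h1 : ∀ x ∈ W, ∑ k ∈ Icc 1 K, (if 𝔸.N x ^ k ≤ y then Real.log (𝔸.N x) else 0) ≤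
      (fun p : ℕ => (Nat.log p y : ℝ) * Real.log p) (𝔸.pr x) := by
    intro x _
    rw [← Finset.sum_filter, Finset.sum_const, nsmul_eq_mul, 𝔸.N_eq]
    have hp := 𝔸.prime_pr x
    have hf := 𝔸.f_pos x
    have h2 : ((Icc 1 K).filter fun k => (𝔸.pr x ^ 𝔸.f x) ^ k ≤ y) ⊆
        Icc 1 (Nat.log (𝔸.pr x) y / 𝔸.f x) := by
      intro k hk
      rw [mem_filter, mem_Icc] at hk
      rw [mem_Icc]
      refine ⟨hk.1.1, (Nat.le_div_iff_mul_le (by omega)).2 ?_⟩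
      have h3 := hk.2
      rw [← pow_mul] at h3
      rw [mul_comm]
      exact Nat.le_log_of_pow_le hp.one_lt h3
    have h3 := card_le_card h2
    rw [Nat.card_Icc, Nat.add_sub_cancel] at h3
    have h4 : ((Icc 1 K).filter fun k => (𝔸.pr x ^ 𝔸.f x) ^ k ≤ y).card * 𝔸.f x ≤
        Nat.log (𝔸.pr x) y := (Nat.mul_le_mul_right _ h3).trans (Nat.div_mul_le_self _ _)
    have h5 : (((Icc 1 K).filter fun k => (𝔸.pr x ^ 𝔸.f x) ^ k ≤ y).card : ℝ) * 𝔸.f x ≤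
        Nat.log (𝔸.pr x) y := by exact_mod_cast h4
    have h6 : (0 : ℝ) ≤ Real.log (𝔸.pr x) := Real.log_natCast_nonneg _
    push_cast
    rw [Real.log_pow]
    calc (((Icc 1 K).filter fun k => (𝔸.pr x ^ 𝔸.f x) ^ k ≤ y).card : ℝ) *
          ((𝔸.f x : ℝ) * Real.log (𝔸.pr x))
        = ((((Icc 1 K).filter fun k => (𝔸.pr x ^ 𝔸.f x) ^ k ≤ y).card : ℝ) * 𝔸.f x) *
          Real.log (𝔸.pr x) := by ring
      _ ≤ _ := mul_le_mul_of_nonneg_right h5 h6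
  have hg : ∀ n : ℕ, 0 ≤ (fun p : ℕ => (Nat.log p y : ℝ) * Real.log p) n := fun n =>
    mul_nonneg (Nat.cast_nonneg _) (Real.log_natCast_nonneg _)
  refine (Finset.sum_le_sum h1).trans ((over_sum 𝔸 W _ hg).trans ?_)
  have h2 : ∑ p ∈ W.image 𝔸.pr, (fun p : ℕ => (Nat.log p y : ℝ) * Real.log p) p ≤
      ∑ p ∈ Nat.primesLE y, (Nat.log p y : ℝ) * Real.log p := by
    have h3 : ∑ p ∈ (W.image 𝔸.pr).filter (fun p => p ≤ y), (Nat.log p y : ℝ) * Real.log p =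
        ∑ p ∈ W.image 𝔸.pr, (fun p : ℕ => (Nat.log p y : ℝ) * Real.log p) p := by
      rw [Finset.sum_filter]
      refine Finset.sum_congr rfl fun p _ => ?_
      split_ifs with h
      · rfl
      · show (0 : ℝ) = (Nat.log p y : ℝ) * Real.log p
        rw [Nat.log_of_lt (not_le.1 h), Nat.cast_zero, zero_mul]
    rw [← h3]
    refine Finset.sum_le_sum_of_subset_of_nonneg ?_ fun p _ _ => hg p
    intro p hp
    rw [mem_filter, mem_image] at hp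
    obtain ⟨⟨x, _, rfl⟩, hy⟩ := hp
    rw [Nat.mem_primesLE]
    exact ⟨hy, 𝔸.prime_pr x⟩
  have h3 : ∑ p ∈ Nat.primesLE y, (Nat.log p y : ℝ) * Real.log p ≤ 6 * y := by
    rw [← Chebyshev.psi_eq_sum_mul_log_prime]
    have h4 := Rate.psi_le y
    unfold Chebyshev.psi
    rwa [Nat.floor_natCast]
  have h4 : (0 : ℝ) ≤ 𝔸.d := Nat.cast_nonneg _
  calc (𝔸.d : ℝ) * ∑ p ∈ W.image 𝔸.pr, (fun p : ℕ => (Nat.log p y : ℝ) * Real.log p) p
      ≤ 𝔸.d * (6 * y) := mul_le_mul_of_nonneg_left (h2.trans h3) h4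
    _ = 6 * 𝔸.d * y := by ring

/-- The exponents of an element of norm at most `B`. -/
theorem exp_le {P : Type} (𝔸 : Ar P) {B : ℕ} {a : P →₀ ℕ} (ha : nn 𝔸.N a ≤ B) (x : P) :
    a x ≤ B := by
  classical
  have h1 : a = Finsupp.single x (a x) + a.erase x := (Finsupp.single_add_erase x a).symm
  have h2 : nn 𝔸.N a = 𝔸.N x ^ a x * nn 𝔸.N (a.erase x) := by
    conv_lhs => rw [h1]
    rw [nn_add, nn_single]
  have h3 : 𝔸.N x ^ a x ≤ nn 𝔸.N a := by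
    rw [h2]
    exact Nat.le_mul_of_pos_right _ (𝔸.nn_pos _)
  have h4 : a x < 𝔸.N x ^ a x := Nat.lt_pow_self (𝔸.two_le x)
  omega

theorem log_nn {P : Type} (𝔸 : Ar P) {B : ℕ} {a : P →₀ ℕ} (ha : nn 𝔸.N a ≤ B) {W : Finset P}
    (hW : a.support ⊆ W) : Real.log (nn 𝔸.N a) =
      ∑ x ∈ W, ∑ k ∈ Icc 1 B, (if k ≤ a x then Real.log (𝔸.N x) else 0) := by
  classical
  have h1 : Real.log (nn 𝔸.N a) = ∑ x ∈ a.support, (a x : ℝ) * Real.log (𝔸.N x) := by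
    unfold nn Finsupp.prod
    push_cast
    rw [Real.log_prod fun x _ => by
      have := 𝔸.two_le x
      have h2 : (0 : ℝ) < 𝔸.N x := by exact_mod_cast (by omega : 0 < 𝔸.N x)
      positivity]
    exact Finset.sum_congr rfl fun x _ => Real.log_pow _ _
  rw [h1]
  rw [Finset.sum_subset hW fun x _ hx => by
    rw [Finsupp.notMem_support_iff.1 hx, Nat.cast_zero, zero_mul]]
  refine Finset.sum_congr rfl fun x _ => ?_
  rw [← Finset.sum_filter, Finset.sum_const, nsmul_eq_mul]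
  have h2 : (Icc 1 B).filter (fun k => k ≤ a x) = Icc 1 (a x) := by
    ext k
    have := exp_le 𝔸 ha x
    rw [mem_filter, mem_Icc, mem_Icc]
    omega
  rw [h2, Nat.card_Icc, Nat.add_sub_cancel]

/-- Compare `Rate.div_closed` (Rate/Few.lean). PROOF: `log B ≤ B / n a + log (n a)`,
`log (n a) = ∑ over (x, k) with 1 ≤ k ≤ a x of log (N x)`; `(a, x, k) ↦ (a - k x, x, k)` is injective, and
for `e = a - k x` the `(x, k)` satisfy `N x ^ k ≤ B / n e`. For a prime `x` over `p`, `N x = p ^ f`: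
`∑ over k ≥ 1 with p ^ (f k) ≤ y of f log p ≤ ∑ over m ≥ 1 with p ^ m ≤ y of log p`, so the sum over all
`(x, k)` is at most `d * ψ(y) ≤ 6 d y` (`Rate.psi_le`). -/
theorem div_closed {P : Type} (𝔸 : Ar P) (S : Finset (P →₀ ℕ)) (B : ℕ) (hB : 1 ≤ B)
    (hS : ∀ a ∈ S, nn 𝔸.N a ≤ B) (hd : ∀ a ∈ S, ∀ b, b ≤ a → b ∈ S) :
    (S.card : ℝ) * Real.log B ≤ (6 * 𝔸.d + 1) * B * ∑ a ∈ S, 1 / (nn 𝔸.N a : ℝ) := by
  classical
  have hB0 : (0 : ℝ) < B := by exact_mod_cast hB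
  set W : Finset P := S.biUnion fun a => a.support with hWd
  have hW : ∀ a ∈ S, a.support ⊆ W := fun a ha => subset_biUnion_of_mem (fun a : P →₀ ℕ => a.support) ha
  have hL : ∀ x : P, 0 ≤ Real.log (𝔸.N x) := fun x => Real.log_natCast_nonneg _
  have h1 : ∀ a ∈ S, Real.log B ≤ B / nn 𝔸.N a +
      ∑ x ∈ W, ∑ k ∈ Icc 1 B, (if k ≤ a x then Real.log (𝔸.N x) else 0) := by
    intro a ha
    have hm0 : (0 : ℝ) < nn 𝔸.N a := by exact_mod_cast 𝔸.nn_pos a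
    rw [← log_nn 𝔸 (hS a ha) (hW a ha)]
    have h2 : Real.log B = Real.log (B / nn 𝔸.N a) + Real.log (nn 𝔸.N a) := by
      rw [Real.log_div hB0.ne' hm0.ne']; ring
    have h3 : Real.log (B / nn 𝔸.N a) ≤ B / nn 𝔸.N a := by
      have := Real.log_le_sub_one_of_pos (div_pos hB0 hm0)
      linarith
    linarith
  have h2 : ∑ a ∈ S, ∑ x ∈ W, ∑ k ∈ Icc 1 B, (if k ≤ a x then Real.log (𝔸.N x) else 0) ≤
      ∑ e ∈ S, ∑ x ∈ W, ∑ k ∈ Icc 1 B,
        (if 𝔸.N x ^ k ≤ B / nn 𝔸.N e then Real.log (𝔸.N x) else 0) := by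
    rw [Finset.sum_comm, Finset.sum_comm (s := S)]
    refine Finset.sum_le_sum fun x _ => ?_
    rw [Finset.sum_comm, Finset.sum_comm (s := S)]
    refine Finset.sum_le_sum fun k _ => ?_
    rw [← Finset.sum_filter, ← Finset.sum_filter, Finset.sum_const, Finset.sum_const, nsmul_eq_mul,
      nsmul_eq_mul]
    refine mul_le_mul_of_nonneg_right ?_ (hL x)
    have h3 : (S.filter fun a => k ≤ a x).card ≤
        (S.filter fun e => 𝔸.N x ^ k ≤ B / nn 𝔸.N e).card := by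
      have hadd : ∀ a ∈ (S.filter fun a => k ≤ a x : Finset (P →₀ ℕ)),
          (a - Finsupp.single x k) + Finsupp.single x k = a := by
        intro a ha
        refine tsub_add_cancel_of_le ?_
        rw [Finsupp.single_le_iff]
        exact (mem_filter.1 ha).2
      refine Finset.card_le_card_of_injOn (fun a => a - Finsupp.single x k) ?_ ?_
      · intro a ha
        have ha' := ha
        rw [mem_coe, mem_filter] at ha'
        rw [mem_coe, mem_filter]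
        refine ⟨hd a ha'.1 _ tsub_le_self, ?_⟩
        rw [Nat.le_div_iff_mul_le (𝔸.nn_pos _)]
        have h4 : nn 𝔸.N a = nn 𝔸.N (a - Finsupp.single x k) * 𝔸.N x ^ k := by
          conv_lhs => rw [← hadd a ha]
          rw [nn_add, nn_single]
        rw [mul_comm, ← h4]
        exact hS a ha'.1
      · intro a ha b hb hab
        rw [← hadd a ha, ← hadd b hb]
        exact congrArg (fun z => z + Finsupp.single x k) hab
    exact_mod_cast h3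
  have h3 : ∀ e ∈ S, ∑ x ∈ W, ∑ k ∈ Icc 1 B,
      (if 𝔸.N x ^ k ≤ B / nn 𝔸.N e then Real.log (𝔸.N x) else 0) ≤
        6 * 𝔸.d * (B / nn 𝔸.N e) := by
    intro e _
    refine (psiK_le 𝔸 W B (B / nn 𝔸.N e)).trans ?_
    have : ((B / nn 𝔸.N e : ℕ) : ℝ) ≤ (B : ℝ) / nn 𝔸.N e := Nat.cast_div_le
    have h4 : (0 : ℝ) ≤ 6 * 𝔸.d := by positivity
    exact mul_le_mul_of_nonneg_left this h4
  calc (S.card : ℝ) * Real.log B = ∑ a ∈ S, Real.log B := by rw [sum_const, nsmul_eq_mul]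
    _ ≤ ∑ a ∈ S, ((B : ℝ) / nn 𝔸.N a +
        ∑ x ∈ W, ∑ k ∈ Icc 1 B, (if k ≤ a x then Real.log (𝔸.N x) else 0)) := sum_le_sum h1
    _ = ∑ a ∈ S, (B : ℝ) / nn 𝔸.N a +
        ∑ a ∈ S, ∑ x ∈ W, ∑ k ∈ Icc 1 B, (if k ≤ a x then Real.log (𝔸.N x) else 0) :=
          sum_add_distrib
    _ ≤ ∑ a ∈ S, (B : ℝ) / nn 𝔸.N a + ∑ a ∈ S, 6 * 𝔸.d * ((B : ℝ) / nn 𝔸.N a) :=
        add_le_add le_rfl (h2.trans (sum_le_sum h3))
    _ = (6 * 𝔸.d + 1) * B * ∑ a ∈ S, 1 / (nn 𝔸.N a : ℝ) := by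
        rw [← sum_add_distrib, mul_sum]
        refine sum_congr rfl fun m _ => ?_
        ring

end MP60829e.ZK
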