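import Mathlib
import Pool.Agent.Lib.MP_60829e_nt.ZK.Ar

/-! # Theorem ZK: the ideals of a number field -/

open Finset NumberField IsDedekindDomain

namespace MP60829e.ZK

variable (K : Type) [Field K] [NumberField K]

/-- the nonzero prime ideals -/
abbrev Pr : Type := HeightOneSpectrum (𝓞 K)

/-- the ideal `∏ x, x ^ a x` -/
noncomputable def toI (a : Pr K →₀ ℕ) : Ideal (𝓞 K) := a.prod fun x k => x.asIdeal ^ k

theorem toI_add (a b : Pr K →₀ ℕ) : toI K (a + b) = toI K a * toI K b := by
  classical
  unfold toI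
  exact Finsupp.prod_add_index' (fun _ => pow_zero _) (fun _ _ _ => pow_add _ _ _)

theorem toI_ne_bot (a : Pr K →₀ ℕ) : toI K a ≠ ⊥ := by
  unfold toI Finsupp.prod
  rw [← Submodule.zero_eq_bot, Finset.prod_ne_zero_iff]
  intro x _
  exact pow_ne_zero _ x.ne_bot

/-- The multiplicity of a prime ideal in `toI a`. -/
theorem emultiplicity_toI (a : Pr K →₀ ℕ) (x : Pr K) : emultiplicity x.asIdeal (toI K a) = a x := by
  classical
  have hp : Prime x.asIdeal := x.prime
  unfold toI Finsupp.prod
  rw [Finset.emultiplicity_prod hp]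
  have h1 : ∀ y ∈ a.support, emultiplicity x.asIdeal (y.asIdeal ^ a y) =
      if y = x then (a x : ℕ∞) else 0 := by
    intro y _
    rw [emultiplicity_pow hp]
    split_ifs with h
    · subst h
      have h2 : emultiplicity y.asIdeal y.asIdeal = 1 := by
        have h3 : FiniteMultiplicity y.asIdeal y.asIdeal :=
          FiniteMultiplicity.of_not_isUnit hp.not_isUnit hp.ne_zero
        exact h3.emultiplicity_self
      rw [h2, mul_one]
    · have h2 : emultiplicity x.asIdeal y.asIdeal = 0 := by
        rw [emultiplicity_eq_zero]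
        intro h3
        apply h
        have h4 : Associated x.asIdeal y.asIdeal := hp.associated_of_dvd y.prime h3
        rw [associated_iff_eq] at h4
        exact (HeightOneSpectrum.ext h4).symm
      rw [h2, mul_zero]
  rw [Finset.sum_congr rfl h1, Finset.sum_ite_eq']
  split_ifs with h
  · rfl
  · rw [Finsupp.notMem_support_iff.1 h]
    rfl

theorem toI_injective : Function.Injective (toI K) := by
  intro a b hab
  ext x
  have h1 := emultiplicity_toI K a x
  rw [hab, emultiplicity_toI K b x] at h1
  exact_mod_cast h1.symm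

theorem toI_single (x : Pr K) (k : ℕ) : toI K (Finsupp.single x k) = x.asIdeal ^ k := by
  unfold toI
  exact Finsupp.prod_single_index (pow_zero _)

theorem exists_toI (I : Ideal (𝓞 K)) (hI : I ≠ ⊥) : ∃ a : Pr K →₀ ℕ, toI K a = I := by
  revert hI
  refine UniqueFactorizationMonoid.induction_on_prime I ?_ ?_ ?_
  · intro h
    exact absurd rfl h
  · intro J hJ _
    refine ⟨0, ?_⟩
    rw [Ideal.isUnit_iff] at hJ
    rw [hJ]
    unfold toI
    rw [Finsupp.prod_zero_index, Ideal.one_eq_top]
  · intro J p hJ hp ih _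
    obtain ⟨a, ha⟩ := ih (by rwa [← Submodule.zero_eq_bot])
    have hp1 : p ≠ ⊥ := by
      rw [← Submodule.zero_eq_bot]
      exact hp.ne_zero
    let x : Pr K := ⟨p, Ideal.isPrime_of_prime hp, hp1⟩
    refine ⟨Finsupp.single x 1 + a, ?_⟩
    rw [toI_add, toI_single, ha, pow_one]

theorem absNorm_toI (a : Pr K →₀ ℕ) :
    Ideal.absNorm (toI K a) = nn (fun x : Pr K => Ideal.absNorm x.asIdeal) a := by
  unfold toI nn Finsupp.prod
  rw [map_prod]
  exact Finset.prod_congr rfl fun x _ => map_pow _ _ _

end MP60829e.ZK
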