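import Mathlib
import Pool.Agent.Lib.MP_60829e_nt.ZK.NF

/-! # Theorem ZK: the number of ideals and the primes over a prime number -/

open Finset NumberField IsDedekindDomain

namespace MP60829e.ZK

variable (K : Type) [Field K] [NumberField K]

/-- A prime ideal lies over a prime number. -/
private theorem exists_over (x : Pr K) : ∃ p : ℕ, p.Prime ∧
    x.asIdeal.LiesOver (Ideal.span {(p : ℤ)}) := by
  have hx : x.asIdeal.IsPrime := x.isPrime
  have h1 : (Ideal.under ℤ x.asIdeal).IsPrime := Ideal.IsPrime.under ℤ x.asIdeal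
  have h2 : Ideal.under ℤ x.asIdeal ≠ ⊥ := by
    intro h
    exact x.ne_bot (Ideal.eq_bot_of_comap_eq_bot (R := ℤ) h)
  obtain ⟨g, hg⟩ : ∃ g : ℤ, Ideal.under ℤ x.asIdeal = Ideal.span {g} :=
    (IsPrincipalIdealRing.principal (Ideal.under ℤ x.asIdeal)).principal
  have hg0 : g ≠ 0 := by
    rintro rfl
    apply h2
    rw [hg]
    simp
  refine ⟨g.natAbs, ?_, ⟨?_⟩⟩
  · rw [← Int.prime_iff_natAbs_prime, ← Ideal.span_singleton_prime hg0, ← hg]
    exact h1
  · rw [hg]
    exact (Ideal.span_singleton_eq_span_singleton.2 (Int.associated_natAbs g)).symm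

/-- The number of ideals. PROOF: `NumberField.Ideal.tendsto_norm_le_div_atTop` and finiteness
(`Ideal.finite_setOfPred_absNorm_le`). -/
theorem card_ideals : ∃ A : ℕ, ∀ B : ℕ, 1 ≤ B →
    {a : Pr K →₀ ℕ | nn (fun x : Pr K => Ideal.absNorm x.asIdeal) a ≤ B}.Finite ∧
      {a : Pr K →₀ ℕ | nn (fun x : Pr K => Ideal.absNorm x.asIdeal) a ≤ B}.ncard ≤ A * B := by
  obtain ⟨c, hc⟩ : ∃ c : ℝ, Filter.Tendsto (fun s : ℝ =>
      (Nat.card {I : Ideal (𝓞 K) // (Ideal.absNorm I : ℝ) ≤ s} : ℝ) / s) Filter.atTop (nhds c) :=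
    ⟨_, NumberField.Ideal.tendsto_norm_le_div_atTop K⟩
  have hev := (hc.eventually (gt_mem_nhds (lt_add_one c))).and (Filter.eventually_ge_atTop (1 : ℝ))
  obtain ⟨s0, hs0⟩ := Filter.eventually_atTop.1 hev
  obtain ⟨n0, hn0⟩ := exists_nat_ge s0
  have hcard : ∀ B : ℕ, Nat.card {I : Ideal (𝓞 K) // (Ideal.absNorm I : ℝ) ≤ B} =
      {I : Ideal (𝓞 K) | Ideal.absNorm I ≤ B}.ncard := by
    intro B
    rw [← Nat.card_coe_set_eq]
    refine Nat.card_congr (Equiv.subtypeEquivRight fun I => ?_)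
    show (Ideal.absNorm I : ℝ) ≤ B ↔ Ideal.absNorm I ≤ B
    exact Nat.cast_le
  have hfinI : ∀ B : ℕ, {I : Ideal (𝓞 K) | Ideal.absNorm I ≤ B}.Finite := fun B =>
    Ideal.finite_setOfPred_absNorm_le B
  have hsub : ∀ B : ℕ, Set.MapsTo (toI K)
      {a : Pr K →₀ ℕ | nn (fun x : Pr K => Ideal.absNorm x.asIdeal) a ≤ B}
      {I : Ideal (𝓞 K) | Ideal.absNorm I ≤ B} := by
    intro B a ha
    show Ideal.absNorm (toI K a) ≤ B
    rw [absNorm_toI]
    exact ha
  refine ⟨⌈c + 1⌉₊ + {I : Ideal (𝓞 K) | Ideal.absNorm I ≤ n0}.ncard, fun B hB => ⟨?_, ?_⟩⟩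
  · exact Set.Finite.of_injOn (hsub B) (toI_injective K).injOn (hfinI B)
  · refine (Set.ncard_le_ncard_of_injOn (toI K) (hsub B) (toI_injective K).injOn (hfinI B)).trans ?_
    rcases le_total n0 B with h | h
    · have h1 : s0 ≤ (B : ℝ) := hn0.trans (by exact_mod_cast h)
      have h2 := (hs0 _ h1).1
      have hB0 : (0 : ℝ) < B := by exact_mod_cast hB
      rw [hcard, div_lt_iff₀ hB0] at h2
      have h3 : (({I : Ideal (𝓞 K) | Ideal.absNorm I ≤ B}.ncard : ℕ) : ℝ) ≤ ⌈c + 1⌉₊ * B :=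
        h2.le.trans (mul_le_mul_of_nonneg_right (Nat.le_ceil _) hB0.le)
      have h4 : {I : Ideal (𝓞 K) | Ideal.absNorm I ≤ B}.ncard ≤ ⌈c + 1⌉₊ * B := by exact_mod_cast h3
      exact h4.trans (Nat.mul_le_mul_right _ (Nat.le_add_right _ _))
    · have h1 : {I : Ideal (𝓞 K) | Ideal.absNorm I ≤ B}.ncard ≤
          {I : Ideal (𝓞 K) | Ideal.absNorm I ≤ n0}.ncard :=
        Set.ncard_le_ncard (fun I hI => le_trans hI h) (hfinI n0)
      exact h1.trans ((Nat.le_add_left _ _).trans (Nat.le_mul_of_pos_right _ hB))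

/-- A prime ideal has norm `p ^ f` (`Ideal.absNorm_eq_pow_inertiaDeg`), and there are at most `[K : ℚ]`
prime ideals over `p` (`Ideal.card_primesOverFinset_le_finrank`). -/
theorem exists_ar : ∃ 𝔸 : Ar (Pr K), 𝔸.N = fun x : Pr K => Ideal.absNorm x.asIdeal := by
  classical
  choose p hp hover using exists_over K
  have hf : ∀ x, Ideal.absNorm x.asIdeal = p x ^ ((Ideal.span {(p x : ℤ)}).inertiaDeg' x.asIdeal) := by
    intro x
    have := hover x
    exact Ideal.absNorm_eq_pow_inertiaDeg' x.asIdeal (hp x)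
  obtain ⟨A, hA⟩ := card_ideals K
  refine ⟨⟨fun x => Ideal.absNorm x.asIdeal, p,
    fun x => (Ideal.span {(p x : ℤ)}).inertiaDeg' x.asIdeal, Module.finrank ℚ K, A, hp, fun x => ?_,
    hf, fun q s hs => ?_, fun B => ?_, fun B hB => (hA B hB).2⟩, rfl⟩
  · rw [Nat.one_le_iff_ne_zero]
    intro h
    have h1 := hf x
    rw [h, pow_zero, Ideal.absNorm_eq_one_iff] at h1
    exact x.isPrime.ne_top h1
  · rcases s.eq_empty_or_nonempty with rfl | ⟨x0, hx0⟩
    · simp
    · have hq : q.Prime := (hs x0 hx0) ▸ hp x0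
      have hq0 : (Ideal.span {(q : ℤ)}) ≠ ⊥ := by
        rw [Ne, Ideal.span_singleton_eq_bot]
        exact_mod_cast hq.ne_zero
      have hmax : (Ideal.span {(q : ℤ)}).IsMaximal :=
        ((Ideal.span_singleton_prime (by exact_mod_cast hq.ne_zero)).2
          (Nat.prime_iff_prime_int.1 hq)).isMaximal hq0
      refine le_trans ?_ (Ideal.card_primesOverFinset_le_finrank (𝓞 K) ℚ K hq0)
      refine Finset.card_le_card_of_injOn (fun x => x.asIdeal) ?_ ?_
      · intro x hx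
        rw [Finset.mem_coe, IsDedekindDomain.mem_primesOverFinset_iff hq0]
        have h1 := hover x
        rw [hs x hx] at h1
        exact ⟨x.isPrime, h1⟩
      · intro x _ y _ h
        exact HeightOneSpectrum.ext h
  · rcases Nat.eq_zero_or_pos B with rfl | hB
    · exact (hA 1 le_rfl).1.subset fun a ha => (Nat.zero_le _).trans' ha |>.trans zero_le_one
    · exact (hA B hB).1

end MP60829e.ZK
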