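import Mathlib
import Pool.Agent.Lib.MP_60829e_nt.ZK.Ar
import Pool.Agent.Lib.MP_60829e_nt.ZK.Div
import Pool.Agent.Lib.MP_60829e_nt.Rate.Few

/-! # Theorem ZK: sums of reciprocals of norms -/

open Finset

namespace MP60829e.ZK

/-- PROOF: at most `d` primes over each prime number, `N x - 1 ≥ pr x - 1`, `Rate.sum_inv_sub_one`. -/
theorem sum_inv_sub_one {P : Type} (𝔸 : Ar P) (B : ℕ) (hB : 2 ≤ B) (T : Finset P)
    (hT : ∀ x ∈ T, 𝔸.N x ≤ B) :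
    ∑ x ∈ T, 1 / ((𝔸.N x : ℝ) - 1) ≤ 𝔸.d * (Real.log (Real.log B) + 5) := by
  classical
  set g : ℕ → ℝ := fun n => if 2 ≤ n then 1 / ((n : ℝ) - 1) else 0 with hg
  have hg0 : ∀ n, 0 ≤ g n := by
    intro n
    rw [hg]
    dsimp only
    split_ifs with h
    · have : (2 : ℝ) ≤ n := by exact_mod_cast h
      apply div_nonneg zero_le_one
      linarith
    · exact le_rfl
  have h1 : ∀ x ∈ T, 1 / ((𝔸.N x : ℝ) - 1) ≤ g (𝔸.pr x) := by
    intro x _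
    have h2 : (2 : ℝ) ≤ 𝔸.pr x := by exact_mod_cast (𝔸.prime_pr x).two_le
    have h3 : (𝔸.pr x : ℝ) ≤ 𝔸.N x := by exact_mod_cast 𝔸.pr_le x
    rw [hg]
    dsimp only
    rw [if_pos (𝔸.prime_pr x).two_le]
    exact one_div_le_one_div_of_le (by linarith) (by linarith)
  refine (Finset.sum_le_sum h1).trans ((over_sum 𝔸 T g hg0).trans ?_)
  refine mul_le_mul_of_nonneg_left ?_ (Nat.cast_nonneg _)
  refine le_trans ?_ (Rate.sum_inv_sub_one B hB)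
  have h2 : ∑ p ∈ (Icc 0 B).filter Nat.Prime, 1 / ((p : ℝ) - 1) =
      ∑ p ∈ (Icc 0 B).filter Nat.Prime, g p := by
    refine Finset.sum_congr rfl fun p hp => ?_
    rw [hg]
    dsimp only
    rw [if_pos (mem_filter.1 hp).2.two_le]
  rw [h2]
  refine Finset.sum_le_sum_of_subset_of_nonneg ?_ fun p _ _ => hg0 p
  intro p hp
  rw [mem_image] at hp
  obtain ⟨x, hx, rfl⟩ := hp
  rw [mem_filter, mem_Icc]
  exact ⟨⟨Nat.zero_le _, (𝔸.pr_le x).trans (hT x hx)⟩, 𝔸.prime_pr x⟩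

/-- geometric sums -/
theorem geom_le (q : ℝ) (hq : 2 ≤ q) (K : ℕ) : ∑ k ∈ Icc 1 K, 1 / q ^ k ≤ 1 / (q - 1) := by
  have h4 : ∑ k ∈ Icc 1 K, 1 / q ^ k ≤ (1 - 1 / q ^ K) * (1 / (q - 1)) := by
    induction K with
    | zero => simp
    | succ K ih =>
      rw [← Finset.insert_Icc_right_eq_Icc_add_one (by omega), Finset.sum_insert (by simp)]
      have hp1 : (0 : ℝ) < q - 1 := by linarith
      have hpK : (0 : ℝ) < q ^ K := by positivity
      have hq0 : q ≠ 0 := by linarith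
      have h5 : (1 - 1 / q ^ (K + 1)) * (1 / (q - 1)) =
          1 / q ^ (K + 1) + (1 - 1 / q ^ K) * (1 / (q - 1)) := by
        rw [pow_succ]
        field_simp
        ring
      rw [h5]
      linarith
  refine h4.trans ?_
  have h6 : (0 : ℝ) ≤ 1 / (q - 1) := by
    apply div_nonneg zero_le_one; linarith
  have h7 : (0 : ℝ) ≤ 1 / q ^ K := by positivity
  nlinarith

/-- a prime in the support has norm at most the norm of the element -/
theorem N_le_nn {P : Type} (𝔸 : Ar P) {a : P →₀ ℕ} {x : P} (hx : x ∈ a.support) :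
    𝔸.N x ≤ nn 𝔸.N a := by
  classical
  have h1 : nn 𝔸.N a = 𝔸.N x ^ a x * nn 𝔸.N (a.erase x) := by
    conv_lhs => rw [← Finsupp.single_add_erase x a]
    rw [nn_add, nn_single]
  rw [h1]
  have h2 : a x ≠ 0 := Finsupp.mem_support_iff.1 hx
  exact (Nat.le_self_pow h2 _).trans (Nat.le_mul_of_pos_right _ (𝔸.nn_pos _))

theorem mem_Sm {P : Type} (𝔸 : Ar P) {s r B : ℕ} {a : P →₀ ℕ} :
    a ∈ 𝔸.Sm s r B ↔ nn 𝔸.N a ≤ B ∧ 𝔸.om s a < r := by
  unfold Ar.Sm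
  rw [mem_filter, Ar.mem_el]

/-- The base case. PROOF: the sum is at most the product over the primes `x` with `N x < s` of
`∑ k ≤ B, N x ^ (- k) ≤ 1 + 1 / (N x - 1) ≤ exp (1 / (N x - 1))`. -/
theorem sum_smooth {P : Type} (𝔸 : Ar P) (s B : ℕ) (hs : 2 ≤ s) :
    ∑ a ∈ 𝔸.Sm s 1 B, 1 / (nn 𝔸.N a : ℝ) ≤ (Real.exp 5 * Real.log s) ^ 𝔸.d := by
  classical
  have hs2 : (2 : ℝ) ≤ s := by exact_mod_cast hs
  have hlog : 0 < Real.log s := Real.log_pos (by linarith)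
  set W : Finset P := (𝔸.Sm s 1 B).biUnion fun a => a.support with hWd
  have hW : ∀ a ∈ 𝔸.Sm s 1 B, a.support ⊆ W :=
    fun a ha => subset_biUnion_of_mem (fun a : P →₀ ℕ => a.support) ha
  have hWs : ∀ x ∈ W, 𝔸.N x ≤ s := by
    intro x hx
    rw [hWd, mem_biUnion] at hx
    obtain ⟨a, ha, hxa⟩ := hx
    rw [mem_Sm] at ha
    by_contra hle
    push Not at hle
    have h1 : x ∈ a.support.filter (fun x => s ≤ 𝔸.N x) := mem_filter.2 ⟨hxa, hle.le⟩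
    have h2 : 0 < 𝔸.om s a := Finset.card_pos.mpr ⟨x, h1⟩
    omega
  have hN2 : ∀ x, (2 : ℝ) ≤ 𝔸.N x := fun x => by exact_mod_cast 𝔸.two_le x
  have hnn : ∀ a ∈ 𝔸.Sm s 1 B, (1 / (nn 𝔸.N a : ℝ)) = ∏ x ∈ W, 1 / (𝔸.N x : ℝ) ^ a x := by
    intro a ha
    rw [Finset.prod_div_distrib, Finset.prod_const_one]
    congr 1
    unfold nn Finsupp.prod
    push_cast
    refine Finset.prod_subset (hW a ha) fun x _ hx => ?_
    rw [Finsupp.notMem_support_iff.1 hx, pow_zero]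
  have h1 : ∑ a ∈ 𝔸.Sm s 1 B, 1 / (nn 𝔸.N a : ℝ) ≤
      ∏ x ∈ W, ∑ k ∈ range (B + 1), 1 / (𝔸.N x : ℝ) ^ k := by
    rw [Finset.prod_sum]
    rw [Finset.sum_congr rfl hnn]
    set φ : (P →₀ ℕ) → (∀ x ∈ W, ℕ) := fun a x _ => a x with hφ
    have hinj : Set.InjOn φ (𝔸.Sm s 1 B : Finset (P →₀ ℕ)) := by
      intro a ha b hb hab
      ext x
      by_cases hx : x ∈ W
      · exact congrFun (congrFun hab x) hx
      · have h2 : x ∉ a.support := fun h => hx (hW a ha h)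
        have h3 : x ∉ b.support := fun h => hx (hW b hb h)
        rw [Finsupp.notMem_support_iff.1 h2, Finsupp.notMem_support_iff.1 h3]
    have h2 : ∑ a ∈ 𝔸.Sm s 1 B, ∏ x ∈ W, 1 / (𝔸.N x : ℝ) ^ a x =
        ∑ p ∈ (𝔸.Sm s 1 B).image φ, ∏ x ∈ W.attach, 1 / (𝔸.N x.1 : ℝ) ^ (p x.1 x.2) := by
      rw [Finset.sum_image hinj]
      refine Finset.sum_congr rfl fun a _ => ?_
      exact (Finset.prod_attach W fun x => 1 / (𝔸.N x : ℝ) ^ a x).symm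
    rw [h2]
    refine Finset.sum_le_sum_of_subset_of_nonneg ?_ fun p _ _ =>
      Finset.prod_nonneg fun x _ => by positivity
    intro p hp
    rw [mem_image] at hp
    obtain ⟨a, ha, rfl⟩ := hp
    rw [Finset.mem_pi]
    intro x _
    rw [mem_range]
    exact Nat.lt_succ_of_le (exp_le 𝔸 ((mem_Sm 𝔸).1 ha).1 x)
  refine h1.trans ?_
  have h2 : ∀ x ∈ W, ∑ k ∈ range (B + 1), 1 / (𝔸.N x : ℝ) ^ k ≤
      Real.exp (1 / ((𝔸.N x : ℝ) - 1)) := by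
    intro x _
    have h3 : ∑ k ∈ range (B + 1), 1 / (𝔸.N x : ℝ) ^ k =
        1 + ∑ k ∈ Icc 1 B, 1 / (𝔸.N x : ℝ) ^ k := by
      have h4 : range (B + 1) = insert 0 (Icc 1 B) := by
        ext k
        rw [mem_range, mem_insert, mem_Icc]
        omega
      rw [h4, Finset.sum_insert (by rw [mem_Icc]; omega), pow_zero, div_one]
    rw [h3]
    have h5 := geom_le (𝔸.N x) (hN2 x) B
    have h6 := Real.add_one_le_exp (1 / ((𝔸.N x : ℝ) - 1))
    linarith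
  calc ∏ x ∈ W, ∑ k ∈ range (B + 1), 1 / (𝔸.N x : ℝ) ^ k
      ≤ ∏ x ∈ W, Real.exp (1 / ((𝔸.N x : ℝ) - 1)) :=
        Finset.prod_le_prod (fun x _ => Finset.sum_nonneg fun k _ => by positivity) h2
    _ = Real.exp (∑ x ∈ W, 1 / ((𝔸.N x : ℝ) - 1)) := (Real.exp_sum _ _).symm
    _ ≤ Real.exp (𝔸.d * (Real.log (Real.log s) + 5)) :=
        Real.exp_le_exp.mpr (sum_inv_sub_one 𝔸 s hs W hWs)
    _ = (Real.exp 5 * Real.log s) ^ 𝔸.d := by
        rw [Real.exp_nat_mul, Real.exp_add, Real.exp_log hlog, mul_comm (Real.log s)]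

/-- One more prime. Compare `Rate.sum_step`. -/
theorem sum_step {P : Type} (𝔸 : Ar P) (s r B : ℕ) (hr : 1 ≤ r) (hB : 2 ≤ B) :
    ∑ a ∈ 𝔸.Sm s (r + 1) B, 1 / (nn 𝔸.N a : ℝ) ≤
      (𝔸.d * (Real.log (Real.log B) + 5) + 1) * ∑ a ∈ 𝔸.Sm s r B, 1 / (nn 𝔸.N a : ℝ) := by
  classical
  have hnn0 : (0 : ℝ) ≤ ∑ a ∈ 𝔸.Sm s r B, 1 / (nn 𝔸.N a : ℝ) :=
    Finset.sum_nonneg fun m _ => by positivity
  rcases isEmpty_or_nonempty P with hP | hP
  · have h1 : 𝔸.Sm s (r + 1) B = 𝔸.Sm s r B := by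
      ext a
      have h0 : 𝔸.om s a = 0 := by
        unfold Ar.om
        rw [Finset.card_eq_zero]
        exact Finset.eq_empty_of_isEmpty _
      rw [mem_Sm, mem_Sm, h0]
      exact ⟨fun h => ⟨h.1, by omega⟩, fun h => ⟨h.1, by omega⟩⟩
    rw [h1]
    have h2 := sum_inv_sub_one 𝔸 B hB ∅ (by simp)
    rw [Finset.sum_empty] at h2
    nlinarith
  set W : Finset P := (𝔸.Sm s (r + 1) B).biUnion fun a => a.support with hWd
  have hWB : ∀ x ∈ W, 𝔸.N x ≤ B := by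
    intro x hx
    rw [hWd, mem_biUnion] at hx
    obtain ⟨a, ha, hxa⟩ := hx
    exact (N_le_nn 𝔸 hxa).trans ((mem_Sm 𝔸).1 ha).1
  have hN2 : ∀ x, (2 : ℝ) ≤ 𝔸.N x := fun x => by exact_mod_cast 𝔸.two_le x
  -- choose a prime of norm at least s
  have hch : ∀ a ∈ (𝔸.Sm s (r + 1) B) \ (𝔸.Sm s r B), ∃ x : P × ℕ × (P →₀ ℕ),
      x.1 ∈ W ∧ x.2.1 ∈ Icc 1 B ∧ x.2.2 ∈ 𝔸.Sm s r B ∧ Finsupp.single x.1 x.2.1 + x.2.2 = a := by
    intro a ha
    rw [mem_sdiff] at ha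
    obtain ⟨h1, h2⟩ := ha
    have h1' := (mem_Sm 𝔸).1 h1
    rw [mem_Sm] at h2
    have h3 : 𝔸.om s a = r := by
      have : ¬ 𝔸.om s a < r := fun h => h2 ⟨h1'.1, h⟩
      omega
    obtain ⟨x, hx⟩ := Finset.card_pos.mp (show 0 < 𝔸.om s a by omega)
    rw [mem_filter] at hx
    refine ⟨(x, a x, a.erase x), ?_, ?_, ?_, Finsupp.single_add_erase x a⟩
    · rw [hWd, mem_biUnion]
      exact ⟨a, h1, hx.1⟩
    · rw [mem_Icc]
      have h4 := Finsupp.mem_support_iff.1 hx.1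
      exact ⟨Nat.one_le_iff_ne_zero.2 h4, exp_le 𝔸 h1'.1 x⟩
    · simp only
      rw [mem_Sm]
      constructor
      · have h4 : nn 𝔸.N a = 𝔸.N x ^ a x * nn 𝔸.N (a.erase x) := by
          conv_lhs => rw [← Finsupp.single_add_erase x a]
          rw [nn_add, nn_single]
        have h5 : 0 < 𝔸.N x ^ a x := Nat.pow_pos (by have := 𝔸.two_le x; omega)
        refine le_trans ?_ h1'.1
        rw [h4]
        exact Nat.le_mul_of_pos_left _ h5
      · rw [← h3]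
        refine Finset.card_lt_card ?_
        rw [Finset.ssubset_iff_of_subset (filter_subset_filter _ (by
          rw [Finsupp.support_erase]
          exact Finset.erase_subset _ _))]
        refine ⟨x, mem_filter.2 hx, ?_⟩
        rw [mem_filter, Finsupp.support_erase]
        rintro ⟨h4, _⟩
        exact Finset.notMem_erase x _ h4
  choose! x hx1 hx2 hx3 hx4 using hch
  have hsub : 𝔸.Sm s r B ⊆ 𝔸.Sm s (r + 1) B := by
    intro m hm
    rw [mem_Sm] at hm ⊢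
    exact ⟨hm.1, by omega⟩
  have h1 : ∑ a ∈ (𝔸.Sm s (r + 1) B) \ (𝔸.Sm s r B), 1 / (nn 𝔸.N a : ℝ) ≤
      ∑ y ∈ W ×ˢ (Icc 1 B ×ˢ 𝔸.Sm s r B), 1 / ((𝔸.N y.1 : ℝ) ^ y.2.1 * nn 𝔸.N y.2.2) := by
    have hinj : Set.InjOn x (((𝔸.Sm s (r + 1) B) \ (𝔸.Sm s r B) : Finset (P →₀ ℕ)) : Set (P →₀ ℕ)) := by
      intro a ha b hb hab
      rw [← hx4 a ha, ← hx4 b hb, hab]
    calc ∑ a ∈ (𝔸.Sm s (r + 1) B) \ (𝔸.Sm s r B), 1 / (nn 𝔸.N a : ℝ)
        = ∑ a ∈ (𝔸.Sm s (r + 1) B) \ (𝔸.Sm s r B),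
            1 / ((𝔸.N (x a).1 : ℝ) ^ (x a).2.1 * nn 𝔸.N (x a).2.2) := by
          refine Finset.sum_congr rfl fun a ha => ?_
          congr 1
          conv_lhs => rw [← hx4 a ha]
          rw [nn_add, nn_single]
          push_cast
          ring
      _ = ∑ y ∈ ((𝔸.Sm s (r + 1) B) \ (𝔸.Sm s r B)).image x,
            1 / ((𝔸.N y.1 : ℝ) ^ y.2.1 * nn 𝔸.N y.2.2) := by
          rw [Finset.sum_image hinj]
      _ ≤ _ := by
          refine Finset.sum_le_sum_of_subset_of_nonneg ?_ (fun y _ _ => by positivity)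
          intro y hy
          rw [mem_image] at hy
          obtain ⟨a, ha, rfl⟩ := hy
          rw [mem_product, mem_product]
          exact ⟨hx1 a ha, hx2 a ha, hx3 a ha⟩
  have h2 : ∑ y ∈ W ×ˢ (Icc 1 B ×ˢ 𝔸.Sm s r B), 1 / ((𝔸.N y.1 : ℝ) ^ y.2.1 * nn 𝔸.N y.2.2) =
      (∑ p ∈ W, ∑ k ∈ Icc 1 B, 1 / (𝔸.N p : ℝ) ^ k) * ∑ a ∈ 𝔸.Sm s r B, 1 / (nn 𝔸.N a : ℝ) := by
    rw [Finset.sum_product, Finset.sum_mul]
    refine Finset.sum_congr rfl fun p _ => ?_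
    rw [Finset.sum_product, Finset.sum_mul]
    refine Finset.sum_congr rfl fun k _ => ?_
    rw [Finset.mul_sum]
    refine Finset.sum_congr rfl fun m _ => ?_
    rw [one_div_mul_one_div]
  have h4 : ∑ p ∈ W, ∑ k ∈ Icc 1 B, 1 / (𝔸.N p : ℝ) ^ k ≤
      𝔸.d * (Real.log (Real.log B) + 5) :=
    (Finset.sum_le_sum fun p _ => geom_le (𝔸.N p) (hN2 p) B).trans (sum_inv_sub_one 𝔸 B hB W hWB)
  rw [← Finset.sum_sdiff hsub]
  have h6 := mul_le_mul_of_nonneg_right h4 hnn0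
  rw [h2] at h1
  linarith

end MP60829e.ZK
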