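import Mathlib
import Pool.Agent.Lib.MP_60829e_nt.ZK.Div
import Pool.Agent.Lib.MP_60829e_nt.ZK.Sum
import Pool.Agent.Lib.MP_60829e_nt.Rate.Final

/-! # Theorem ZK: elements with few large primes -/

open Finset

namespace MP60829e.ZK

open MP60829e.Rate (blk)

/-- Compare `Rate.few_primes`, `Rate.few_bound`. PROOF: `div_closed` for `Sm s r B`, `sum_smooth`,
`sum_step`, `Rate.log_blk` (`log (blk ..) ≤ 4 (r + 2) t ^ r log log B`). -/
theorem few {P : Type} (𝔸 : Ar P) (r t : ℕ) (hr : 1 ≤ r) (ht : 2 ≤ t) : ∃ C : ℕ, ∀ B : ℕ, 16 ≤ B →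
    ((𝔸.Sm (blk r t (Real.log B)) r B).card : ℝ) ≤
      C * Real.log (Real.log B) ^ C / Real.log B * B := by
  classical
  set c : ℝ := (6 * 𝔸.d + 1) * ((Real.exp 5 * (4 * (r + 2) * t ^ r)) ^ 𝔸.d *
    (6 * 𝔸.d + 1) ^ (r - 1)) with hc
  obtain ⟨C₀, hC₀⟩ := exists_nat_ge c
  refine ⟨max C₀ (𝔸.d + (r - 1)), fun B hB => ?_⟩
  have hL := Rate.log_ge B hB
  have hl := Rate.loglog_ge B hB
  have he := Real.exp_one_gt_d9
  set L := Real.log B with hLdef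
  set l := Real.log L with hldef
  have hL0 : 0 < L := by linarith
  have hB0 : (0 : ℝ) ≤ B := Nat.cast_nonneg _
  set s := blk r t L with hsdef
  have hs2 : 2 ≤ s := Rate.blk_two_le r t L ht (by linarith)
  have hlogs : Real.log s ≤ 4 * (r + 2) * t ^ r * l := Rate.log_blk r t L l ht hr hL rfl
  have hlogs0 : 0 ≤ Real.log s := Real.log_natCast_nonneg _
  have hd0 : (0 : ℝ) ≤ 𝔸.d := Nat.cast_nonneg _
  have hmain : ∀ r' : ℕ, 1 ≤ r' → ∑ a ∈ 𝔸.Sm s r' B, 1 / (nn 𝔸.N a : ℝ) ≤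
      (Real.exp 5 * Real.log s) ^ 𝔸.d * ((6 * 𝔸.d + 1) * l) ^ (r' - 1) := by
    intro r' hr'
    induction r', hr' using Nat.le_induction with
    | base => simpa using sum_smooth 𝔸 s B hs2
    | succ r' hr' ih =>
      refine (sum_step 𝔸 s r' B hr' (by omega)).trans ?_
      have h1 : (0 : ℝ) ≤ ∑ a ∈ 𝔸.Sm s r' B, 1 / (nn 𝔸.N a : ℝ) :=
        Finset.sum_nonneg fun m _ => by positivity
      have h2 : (𝔸.d : ℝ) * (l + 5) + 1 ≤ (6 * 𝔸.d + 1) * l := by nlinarith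
      calc (𝔸.d * (Real.log (Real.log B) + 5) + 1) * ∑ a ∈ 𝔸.Sm s r' B, 1 / (nn 𝔸.N a : ℝ)
          ≤ ((6 * 𝔸.d + 1) * l) * ∑ a ∈ 𝔸.Sm s r' B, 1 / (nn 𝔸.N a : ℝ) :=
            mul_le_mul_of_nonneg_right h2 h1
        _ ≤ ((6 * 𝔸.d + 1) * l) *
            ((Real.exp 5 * Real.log s) ^ 𝔸.d * ((6 * 𝔸.d + 1) * l) ^ (r' - 1)) :=
            mul_le_mul_of_nonneg_left ih (by positivity)
        _ = (Real.exp 5 * Real.log s) ^ 𝔸.d * ((6 * 𝔸.d + 1) * l) ^ (r' + 1 - 1) := by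
            have : r' + 1 - 1 = (r' - 1) + 1 := by omega
            rw [this, pow_succ]; ring
  have h1 := div_closed 𝔸 (𝔸.Sm s r B) B (by omega) (fun a ha => ((mem_Sm 𝔸).1 ha).1) (by
    intro a ha b hb
    rw [mem_Sm] at ha ⊢
    have hab : b + (a - b) = a := add_tsub_cancel_of_le hb
    constructor
    · refine le_trans ?_ ha.1
      rw [← hab, nn_add]
      exact Nat.le_mul_of_pos_right _ (𝔸.nn_pos _)
    · refine lt_of_le_of_lt (Finset.card_le_card (Finset.filter_subset_filter _ ?_)) ha.2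
      intro x hx
      rw [Finsupp.mem_support_iff] at hx ⊢
      have := hb x
      intro h0
      rw [h0] at this
      exact hx (Nat.le_zero.1 this))
  rw [← hLdef] at h1
  have h2 := hmain r hr
  have h3 : (Real.exp 5 * Real.log s) ^ 𝔸.d ≤ (Real.exp 5 * (4 * (r + 2) * t ^ r)) ^ 𝔸.d * l ^ 𝔸.d := by
    rw [← mul_pow]
    refine pow_le_pow_left₀ (by positivity) ?_ _
    rw [mul_assoc]
    exact mul_le_mul_of_nonneg_left hlogs (Real.exp_pos _).le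
  have h4 : (6 * (𝔸.d : ℝ) + 1) * ∑ a ∈ 𝔸.Sm s r B, 1 / (nn 𝔸.N a : ℝ) ≤ c * l ^ (𝔸.d + (r - 1)) := by
    calc (6 * (𝔸.d : ℝ) + 1) * ∑ a ∈ 𝔸.Sm s r B, 1 / (nn 𝔸.N a : ℝ)
        ≤ (6 * 𝔸.d + 1) * ((Real.exp 5 * Real.log s) ^ 𝔸.d * ((6 * 𝔸.d + 1) * l) ^ (r - 1)) :=
          mul_le_mul_of_nonneg_left h2 (by positivity)
      _ ≤ (6 * 𝔸.d + 1) * (((Real.exp 5 * (4 * (r + 2) * t ^ r)) ^ 𝔸.d * l ^ 𝔸.d) *
          ((6 * 𝔸.d + 1) * l) ^ (r - 1)) := by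
          refine mul_le_mul_of_nonneg_left (mul_le_mul_of_nonneg_right h3 (by positivity)) (by positivity)
      _ = c * l ^ (𝔸.d + (r - 1)) := by
          rw [hc, mul_pow (6 * (𝔸.d : ℝ) + 1) l (r - 1), pow_add]; ring
  set C := max C₀ (𝔸.d + (r - 1)) with hC
  have h5 : c * l ^ (𝔸.d + (r - 1)) ≤ C * l ^ C := by
    refine mul_le_mul ?_ (pow_le_pow_right₀ hl (le_max_right _ _)) (by positivity) (Nat.cast_nonneg _)
    refine hC₀.trans ?_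
    exact_mod_cast le_max_left _ _
  have h6 : ((𝔸.Sm s r B).card : ℝ) * L ≤ C * l ^ C * B := by
    calc ((𝔸.Sm s r B).card : ℝ) * L
        ≤ (6 * 𝔸.d + 1) * B * ∑ a ∈ 𝔸.Sm s r B, 1 / (nn 𝔸.N a : ℝ) := h1
      _ = ((6 * 𝔸.d + 1) * ∑ a ∈ 𝔸.Sm s r B, 1 / (nn 𝔸.N a : ℝ)) * B := by ring
      _ ≤ (C * l ^ C) * B := mul_le_mul_of_nonneg_right (h4.trans h5) hB0
  rw [div_mul_eq_mul_div, le_div_iff₀ hL0]
  exact h6

end MP60829e.ZK
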