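import Mathlib
import Pool.Agent.Lib.MP_60829e_nt.ZK.Few
import Pool.Agent.Lib.MP_60829e_nt.ZK.Typ

/-! # Theorem ZK: the count of sets without boxes of primes -/

open Finset

namespace MP60829e.ZK

open MP60829e.Rate (BoxFree blk blk_two_le box log_ge loglog_ge)

/-- As `Rate.blk_density`, with a larger side. -/
private theorem density (r t d : ℕ) (L : ℝ) (ht : 2 ≤ t) (hL : 1 ≤ L) (hd : 1 ≤ d)
    (T : Finset (Fin r → Fin (d * blk r t L))) (hT : BoxFree r t (d * blk r t L) T) :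
    (T.card : ℝ) ≤ 2 / (1 + L) ^ (r + 2) * ((d * blk r t L : ℕ) : ℝ) ^ r := by
  have hs2 := blk_two_le r t L ht hL
  have hs0 : (0 : ℝ) < blk r t L := by exact_mod_cast (by omega : 0 < blk r t L)
  have ht0 : (0 : ℝ) < t := by exact_mod_cast (by omega : 0 < t)
  have hS1 : 1 ≤ d * blk r t L := Nat.mul_pos hd (by omega)
  have hle : (blk r t L : ℝ) ≤ ((d * blk r t L : ℕ) : ℝ) := by
    exact_mod_cast Nat.le_mul_of_pos_left _ hd
  have hS0 : (0 : ℝ) < ((d * blk r t L : ℕ) : ℝ) := by exact_mod_cast hS1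
  have h1 := box r t (d * blk r t L) ht hS1 T hT
  have h2 : (t : ℝ) ^ 2 / ((d * blk r t L : ℕ) : ℝ) ≤ 1 / (1 + L) ^ ((r + 2) * t ^ r) := by
    rw [div_le_div_iff₀ hS0 (by positivity), one_mul]
    exact (Nat.le_ceil _).trans hle
  have h3 : ((T.card : ℝ) / (((d * blk r t L : ℕ) : ℝ)) ^ r) ^ (t ^ r) ≤
      (2 / (1 + L) ^ (r + 2)) ^ (t ^ r) := by
    refine h1.trans ?_
    have h5 : (2 / (1 + L) ^ (r + 2)) ^ (t ^ r) = 2 ^ (t ^ r) * (1 / (1 + L) ^ ((r + 2) * t ^ r)) := by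
      rw [div_pow, ← pow_mul, mul_one_div]
    rw [h5]
    exact mul_le_mul_of_nonneg_left h2 (by positivity)
  have h4 := le_of_pow_le_pow_left₀ (by positivity) (by positivity) h3
  rwa [div_le_iff₀ (by positivity)] at h4

/-- Compare `SE.count_gridFree` (SE/Count1.lean). PROOF: `typical` with `s = blk r t (log B)` and the
box theorem (`Rate.box`; `d * s ≥ s`, see `Rate.blk_density`), and `few`. If there are no primes the set
has at most one element. -/
theorem count_gridFree {P : Type} (𝔸 : Ar P) (r t : ℕ) (hr : 1 ≤ r) (ht : 2 ≤ t) :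
    ∃ C : ℕ, ∀ X : Set (P →₀ ℕ), GridFree r t X → ∀ B : ℕ, 16 ≤ B →
      ({a : P →₀ ℕ | nn 𝔸.N a ≤ B ∧ a ∈ X}.ncard : ℝ) ≤
        C * Real.log (Real.log B) ^ C / Real.log B * B := by
  classical
  rcases Nat.eq_zero_or_pos 𝔸.d with hd | hd
  · refine ⟨1, fun X _ B hB => ?_⟩
    have hL := log_ge B hB
    have hl := loglog_ge B hB
    have he := Real.exp_one_gt_d9
    have hL0 : 0 < Real.log B := by linarith
    have hempty : IsEmpty P := by
      refine ⟨fun x => ?_⟩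
      have h1 := 𝔸.over_le (𝔸.pr x) {x} (by
        intro y hy
        rw [Finset.mem_singleton.1 hy])
      rw [Finset.card_singleton, hd] at h1
      omega
    have h1 : ({a : P →₀ ℕ | nn 𝔸.N a ≤ B ∧ a ∈ X}.ncard : ℝ) ≤ 1 := by
      exact_mod_cast Set.ncard_le_one_of_subsingleton _
    refine h1.trans ?_
    have h2 : Real.log B ≤ B := (Real.log_le_sub_one_of_pos (by
      exact_mod_cast (by omega : 0 < B))).trans (by linarith)
    rw [pow_one, Nat.cast_one, one_mul, div_mul_eq_mul_div, le_div_iff₀ hL0, one_mul]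
    have hB0 : (0 : ℝ) ≤ B := Nat.cast_nonneg _
    nlinarith
  · obtain ⟨C₁, hC₁⟩ := few 𝔸 r t hr ht
    refine ⟨4 * 𝔸.A * 𝔸.d ^ r + C₁, fun X hX B hB => ?_⟩
    have hL := log_ge B hB
    have hl := loglog_ge B hB
    have he := Real.exp_one_gt_d9
    set L := Real.log B with hLdef
    set l := Real.log L with hldef
    have hL2 : 2 ≤ L := by linarith
    have hL0 : 0 < L := by linarith
    have hB0 : (0 : ℝ) < B := by exact_mod_cast (by omega : 0 < B)
    set s := blk r t L with hs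
    have hs2 : 2 ≤ s := blk_two_le r t L ht (by linarith)
    have hfew : ((𝔸.Sm s r B).card : ℝ) ≤ C₁ * l ^ C₁ / L * B := hC₁ B hB
    set S : Finset (P →₀ ℕ) := (𝔸.el B).filter (fun a => a ∈ X) with hS
    have hset : {a : P →₀ ℕ | nn 𝔸.N a ≤ B ∧ a ∈ X} = (S : Set (P →₀ ℕ)) := by
      ext a
      rw [hS, Finset.mem_coe, mem_filter, 𝔸.mem_el]
      exact Iff.rfl
    have htyp : ((S.filter (fun a => r ≤ 𝔸.om s a)).card : ℝ) ≤
        𝔸.A * 𝔸.d ^ r * B * (4 / L) := by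
      have h1 := typical 𝔸 r t s B (by omega) hd X hX
        (2 / (1 + L) ^ (r + 2)) (by positivity)
        (fun T hT => density r t 𝔸.d L ht (by linarith) hd T hT)
      have h2 : ((S.filter (fun a => r ≤ 𝔸.om s a)).card : ℝ) ≤
          (((𝔸.el B).filter (fun a => a ∈ X ∧ r ≤ 𝔸.om s a)).card : ℝ) := by
        rw [hS, Finset.filter_filter]
      refine (h2.trans h1).trans ?_
      rw [← hLdef]
      have h3 : (1 + L) ^ r * (2 / (1 + L) ^ (r + 2)) ≤ 4 / L := by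
        have h4 : (1 + L) ^ r * (2 / (1 + L) ^ (r + 2)) = 2 / (1 + L) ^ 2 := by
          rw [pow_add]
          have : (1 + L) ≠ 0 := by positivity
          field_simp
        rw [h4, div_le_div_iff₀ (by positivity) hL0]
        nlinarith
      calc (𝔸.A : ℝ) * 𝔸.d ^ r * B * (1 + L) ^ r * (2 / (1 + L) ^ (r + 2))
          = 𝔸.A * 𝔸.d ^ r * B * ((1 + L) ^ r * (2 / (1 + L) ^ (r + 2))) := by ring
        _ ≤ 𝔸.A * 𝔸.d ^ r * B * (4 / L) := mul_le_mul_of_nonneg_left h3 (by positivity)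
    have h2 : (S.card : ℝ) ≤ ((S.filter (fun a => r ≤ 𝔸.om s a)).card : ℝ) +
        ((𝔸.Sm s r B).card : ℝ) := by
      have h3 : S ⊆ (S.filter (fun a => r ≤ 𝔸.om s a)) ∪ (𝔸.Sm s r B) := by
        intro b hb
        by_cases h4 : r ≤ 𝔸.om s b
        · exact mem_union_left _ (mem_filter.2 ⟨hb, h4⟩)
        · have hb' := (mem_filter.1 hb).1
          refine mem_union_right _ ?_
          rw [Ar.Sm]
          exact mem_filter.2 ⟨hb', by omega⟩
      have h4 := (card_le_card h3).trans (card_union_le _ _)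
      exact_mod_cast h4
    rw [hset, Set.ncard_coe_finset]
    refine h2.trans ((add_le_add htyp hfew).trans ?_)
    have h5 : (1 : ℝ) ≤ l ^ (4 * 𝔸.A * 𝔸.d ^ r + C₁) := one_le_pow₀ hl
    have h6 : l ^ C₁ ≤ l ^ (4 * 𝔸.A * 𝔸.d ^ r + C₁) :=
      pow_le_pow_right₀ hl (Nat.le_add_left _ _)
    have h7 : (4 * 𝔸.A * 𝔸.d ^ r : ℝ) + C₁ * l ^ C₁ ≤
        ((4 * 𝔸.A * 𝔸.d ^ r + C₁ : ℕ) : ℝ) * l ^ (4 * 𝔸.A * 𝔸.d ^ r + C₁) := by
      push_cast
      rw [add_mul]
      refine add_le_add ?_ (mul_le_mul_of_nonneg_left h6 (Nat.cast_nonneg _))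
      exact le_mul_of_one_le_right (by positivity) h5
    have h8 : (𝔸.A : ℝ) * 𝔸.d ^ r * B * (4 / L) + C₁ * l ^ C₁ / L * B =
        ((4 * 𝔸.A * 𝔸.d ^ r : ℝ) + C₁ * l ^ C₁) / L * B := by
      ring
    rw [h8]
    refine mul_le_mul_of_nonneg_right ?_ hB0.le
    exact div_le_div_of_nonneg_right h7 hL0.le

end MP60829e.ZK
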