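import Mathlib
import Pool.Agent.Lib.MP_60829e_nt.ZL.One

/-! # Theorem ZK: families of points with the count of bad points -/

open Finset Module Polynomial

namespace MP60829e.ZK

open MP60829e.ST (Qa Lt)
open MP60829e.ZL (Row)

/-- `S B` is the set of the objects of norm at most `B`, `x i` the logarithm of `i`. A property which
holds for some element of each grid of rows holds for almost all objects. -/
structure Fam (ι : Type) where
  S : ℕ → Finset ι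
  x : ι → ℂ
  A : ℕ
  card_le : ∀ B : ℕ, 1 ≤ B → (S B).card ≤ A * B
  mem : ∀ i, x i ∈ Lt
  count : ∀ r T : ℕ, 1 ≤ r → 1 ≤ T → ∃ C : ℕ, ∀ P : ℂ → Prop,
    (∀ (u : ℂ) (R : Fin r → Set ℂ), u ∈ Lt → (∀ i, Row T (R i)) →
      ∃ y : Fin r → ℂ, (∀ i, y i ∈ R i) ∧ P (u + ∑ i, y i)) →
    ∀ B : ℕ, 16 ≤ B → ({i : ι | i ∈ S B ∧ ¬ P (x i)}.ncard : ℝ) ≤
      C * Real.log (Real.log B) ^ C / Real.log B * B

/-- The bad points (compare `ZL.BadOne`). -/
def BadP (E : Submodule Qa ℂ) (D : ℕ) (x : ℂ) : Prop :=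
  ∃ q : Qa, q ≠ 0 ∧ ∃ h ∈ E, ∃ A ≤ E, ∃ F : ℂ[X], (∀ j, F.coeff j ∈ E ⊔ A * Lt) ∧
    F.natDegree ≤ D ∧ F.eval (q * x + h) = 0 ∧
    ¬ ∃ G : ℂ[X], (∀ j, G.coeff j ∈ A) ∧ F = (X - C (q * x + h)) * G

/-- Compare `ZL.gridFree_one`, `ZL.count_one`: same proof, with `Φ.count` instead of
`gridFree_of_good` and `count_gridFree`. -/
theorem count_fam {ι : Type} (Φ : Fam ι) (κ D : ℕ) : ∃ K : ℕ, ∀ E : Submodule Qa ℂ,
    FiniteDimensional Qa E → finrank Qa E ≤ κ → (1 : ℂ) ∈ E → ∀ B : ℕ, 16 ≤ B →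
      ({i : ι | i ∈ Φ.S B ∧ BadP E D (Φ.x i)}.ncard : ℝ) ≤
        K * Real.log (Real.log B) ^ K / Real.log B * B := by
  classical
  obtain ⟨r, T, hrT⟩ := ZL.grid (κ ^ (D + 1)) D ((κ ^ (2 * D + 2)) ^ 3 + 1)
  obtain ⟨C, hC⟩ := Φ.count (r + 1) (T + 1) (by omega) (by omega)
  refine ⟨C, fun E hfd hκ h1E B hB => ?_⟩
  obtain ⟨V, -, h1V, hVfd, hVr, hLD⟩ := ZL.exists_LD (E ^ (2 * D + 2))
  have hVν : finrank Qa V ≤ (κ ^ (2 * D + 2)) ^ 3 + 1 := by
    refine hVr.trans (Nat.succ_le_succ (Nat.pow_le_pow_left ?_ 3))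
    exact (ZL.finrank_pow_le E _).trans (Nat.pow_le_pow_left hκ _)
  have hEκ : finrank Qa (E ^ (D + 1) : Submodule Qa ℂ) ≤ κ ^ (D + 1) :=
    (ZL.finrank_pow_le E _).trans (Nat.pow_le_pow_left hκ _)
  have hgf := hC (fun x => ZL.Good (E ^ (D + 1)) D x ∧ x ∉ V) (by
    intro u R hu hR
    obtain ⟨s, hs, hgood, hsV⟩ := hrT (E ^ (D + 1)) V inferInstance hVfd hEκ hVν u hu
      (fun i => if h : i < r + 1 then R ⟨i, h⟩ else {0}) (by
        intro i hi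
        have hi' : i < r + 1 := by omega
        rw [dif_pos hi']
        exact (hR ⟨i, hi'⟩).mono (by omega))
    refine ⟨fun i => if (i : ℕ) < r then s i else 0, ?_, ?_⟩
    · intro i
      dsimp only
      split_ifs with hi
      · have h3 := hs i hi
        rw [dif_pos i.2] at h3
        exact h3
      · exact (hR i).1
    · have h4 : ∑ i : Fin (r + 1), (if (i : ℕ) < r then s i else 0) =
          ∑ i ∈ range r, s i := by
        rw [Fin.sum_univ_eq_sum_range (fun i => if i < r then s i else 0) (r + 1),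
          Finset.sum_range_succ, if_neg (lt_irrefl r), add_zero]
        exact Finset.sum_congr rfl fun i hi => if_pos (Finset.mem_range.1 hi)
      rw [h4]
      exact ⟨hgood, hsV⟩) B hB
  refine le_trans ?_ hgf
  have hsub : {i : ι | i ∈ Φ.S B ∧ BadP E D (Φ.x i)} ⊆
      {i : ι | i ∈ Φ.S B ∧ ¬ (ZL.Good (E ^ (D + 1)) D (Φ.x i) ∧ Φ.x i ∉ V)} := by
    rintro i ⟨hi, q, hq, h, hh, A, hA, F, hF, hFd, hF0, hcon⟩
    refine ⟨hi, ?_⟩
    rintro ⟨hgood, hxV⟩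
    exact hcon (ZL.good_all h1E (Φ.mem i) hgood hLD h1V hxV q hq h hh A hA F hF hFd hF0)
  have hfin : {i : ι | i ∈ Φ.S B ∧
      ¬ (ZL.Good (E ^ (D + 1)) D (Φ.x i) ∧ Φ.x i ∉ V)}.Finite :=
    (Φ.S B).finite_toSet.subset fun i hi => hi.1
  have h := Set.ncard_le_ncard hsub hfin
  exact_mod_cast h

end MP60829e.ZK
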