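import Mathlib
import Pool.Agent.Lib.MP_60829e_nt.FZ.Cor

/-! # Theorem ZK: logarithms of ideals of a number field

`L I` is a logarithm of a generator of `I ^ h`, `h` the class number, additive in `I`. -/

open Module NumberField UniqueFactorizationMonoid Finset

namespace MP60829e.ZK

open MP60829e.ST (Qa Lt)

variable {K : Type} [Field K] [NumberField K]

/-- The space of the logarithms of the units (it contains `2 π i`). -/
noncomputable def U0 (τ : 𝓞 K →+* ℂ) : Submodule Qa ℂ :=
  Submodule.span Qa {z | ∃ u : (𝓞 K)ˣ, Complex.exp z = τ (u : 𝓞 K)}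

/-- `L I` is a logarithm of a generator of `I ^ h`, additive in `I`. -/
structure LogData (τ : 𝓞 K →+* ℂ) (L : Ideal (𝓞 K) → ℂ) : Prop where
  mul : ∀ I J : Ideal (𝓞 K), I ≠ ⊥ → J ≠ ⊥ → L (I * J) = L I + L J
  gen : ∀ I : Ideal (𝓞 K), I ≠ ⊥ → ∃ γ : 𝓞 K, Ideal.span {γ} = I ^ classNumber K ∧
    Complex.exp (L I) = τ γ

theorem U0_finite (τ : 𝓞 K →+* ℂ) : FiniteDimensional Qa (U0 τ) := by
  classical
  obtain ⟨G, hG⟩ := (inferInstance : Module.Finite ℤ (Additive (𝓞 K)ˣ)).fg_top
  have hne : ∀ u : (𝓞 K)ˣ, τ (u : 𝓞 K) ≠ 0 := fun u => (u.isUnit.map τ).ne_zero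
  obtain ⟨z, hz⟩ : ∃ z : Additive (𝓞 K)ˣ → ℂ, ∀ g, Complex.exp (z g) =
      τ ((Additive.toMul g : (𝓞 K)ˣ) : 𝓞 K) :=
    ⟨fun g => Complex.log (τ ((Additive.toMul g : (𝓞 K)ˣ) : 𝓞 K)), fun g =>
      Complex.exp_log (hne _)⟩
  obtain ⟨W, hW⟩ : ∃ W : Submodule Qa ℂ, W = Submodule.span Qa
      (insert (2 * Real.pi * Complex.I) (z '' (G : Set (Additive (𝓞 K)ˣ)))) := ⟨_, rfl⟩
  have hWf : FiniteDimensional Qa W := by
    rw [hW]
    exact FiniteDimensional.span_of_finite Qa ((G.finite_toSet.image z).insert _)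
  have h2 : (2 * Real.pi * Complex.I : ℂ) ∈ W := by
    rw [hW]
    exact Submodule.subset_span (Set.mem_insert _ _)
  have hint : ∀ (n : ℤ) (w : ℂ), w ∈ W → (n : ℂ) * w ∈ W := by
    intro n w hw
    have h3 := W.smul_mem (n : Qa) hw
    have h4 : (n : Qa) • w = (n : ℂ) * w := by
      rw [Algebra.smul_def, map_intCast]
    rwa [h4] at h3
  -- the units have logarithms in `W`
  have key : ∀ u : Additive (𝓞 K)ˣ, ∃ w ∈ W, Complex.exp w =
      τ ((Additive.toMul u : (𝓞 K)ˣ) : 𝓞 K) := by
    intro u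
    have hu : u ∈ Submodule.span ℤ (G : Set (Additive (𝓞 K)ˣ)) := by rw [hG]; trivial
    induction hu using Submodule.span_induction with
    | mem x hx =>
      refine ⟨z x, ?_, hz x⟩
      rw [hW]
      exact Submodule.subset_span (Or.inr ⟨x, hx, rfl⟩)
    | zero => exact ⟨0, W.zero_mem, by simp⟩
    | add x y _ _ hx hy =>
      obtain ⟨w, hw, e⟩ := hx
      obtain ⟨w', hw', e'⟩ := hy
      refine ⟨w + w', W.add_mem hw hw', ?_⟩
      rw [Complex.exp_add, e, e', toMul_add, Units.val_mul, map_mul]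
    | smul n x _ hx =>
      obtain ⟨w, hw, e⟩ := hx
      refine ⟨n * w, hint n w hw, ?_⟩
      rw [Complex.exp_int_mul, e, toMul_zsmul]
      have h3 : ∀ v : (𝓞 K)ˣ, τ (v : 𝓞 K) = ((Units.map (τ : 𝓞 K →* ℂ) v : ℂˣ) : ℂ) :=
        fun v => rfl
      rw [h3, h3, map_zpow, Units.val_zpow_eq_zpow_val]
  refine Submodule.finiteDimensional_of_le (S₂ := W) ?_
  unfold U0
  rw [Submodule.span_le]
  rintro x ⟨u, hu⟩
  obtain ⟨w, hw, e⟩ := key (Additive.ofMul u)
  have h3 : Complex.exp x = Complex.exp w := by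
    rw [hu, e]
    rfl
  obtain ⟨n, hn⟩ := Complex.exp_eq_exp_iff_exists_int.1 h3
  show x ∈ W
  rw [hn]
  exact W.add_mem hw (hint n _ h2)

/-- Every ideal has a generator of its `h`-th power. -/
private theorem exists_gen (I : Ideal (𝓞 K)) (hI : I ≠ ⊥) :
    ∃ γ : 𝓞 K, Ideal.span {γ} = I ^ classNumber K := by
  have h1 : ClassGroup.mk0 ⟨I, mem_nonZeroDivisors_of_ne_zero hI⟩ ^ classNumber K = 1 := by
    unfold classNumber
    exact pow_card_eq_one
  rw [← map_pow] at h1
  have h2 := (ClassGroup.mk0_eq_one_iff (pow_mem (mem_nonZeroDivisors_of_ne_zero hI)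
    (classNumber K))).1 h1
  obtain ⟨γ, hγ⟩ := h2.principal
  exact ⟨γ, hγ.symm⟩

/-- PROOF. `L I = ∑ P, l P` over the prime factors of `I`, `l P` a logarithm of a generator of
`P ^ h`. -/
theorem exists_logData (τ : 𝓞 K →+* ℂ) (hτ : Function.Injective τ) :
    ∃ L : Ideal (𝓞 K) → ℂ, LogData τ L := by
  classical
  have h1 : ∀ P : Ideal (𝓞 K), ∃ γ : 𝓞 K, P ≠ ⊥ → Ideal.span {γ} = P ^ classNumber K := by
    intro P
    by_cases hP : P = ⊥
    · exact ⟨0, fun h => absurd hP h⟩
    · obtain ⟨γ, hγ⟩ := exists_gen P hP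
      exact ⟨γ, fun _ => hγ⟩
  choose g hg using h1
  have hg0 : ∀ P : Ideal (𝓞 K), P ≠ ⊥ → τ (g P) ≠ 0 := by
    intro P hP h0
    have h2 : g P = 0 := hτ (by rw [h0, map_zero])
    have h3 := hg P hP
    rw [h2, Ideal.span_singleton_eq_bot.2 rfl] at h3
    exact pow_ne_zero _ hP h3.symm
  refine ⟨fun I => ((normalizedFactors I).map fun P => Complex.log (τ (g P))).sum, ?_, ?_⟩
  · intro I J hI hJ
    rw [normalizedFactors_mul hI hJ, Multiset.map_add, Multiset.sum_add]
  · intro I hI
    refine ⟨((normalizedFactors I).map g).prod, ?_, ?_⟩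
    · have h2 : ∀ s : Multiset (Ideal (𝓞 K)), (∀ P ∈ s, P ≠ ⊥) →
          Ideal.span {(s.map g).prod} = s.prod ^ classNumber K := by
        intro s
        induction s using Multiset.induction_on with
        | empty =>
          intro _
          rw [Multiset.map_zero, Multiset.prod_zero, Multiset.prod_zero, one_pow,
            Ideal.span_singleton_one, Ideal.one_eq_top]
        | cons P s ih =>
          intro hs
          rw [Multiset.map_cons, Multiset.prod_cons, Multiset.prod_cons, mul_pow,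
            ← Ideal.span_singleton_mul_span_singleton,
            ih fun Q hQ => hs Q (Multiset.mem_cons_of_mem hQ), hg P (hs P (Multiset.mem_cons_self _ _))]
      rw [h2 _ fun P hP => (prime_of_normalized_factor P hP).ne_zero]
      rw [Ideal.prod_normalizedFactors_eq_self hI]
    · have h2 : ∀ s : Multiset (Ideal (𝓞 K)), (∀ P ∈ s, P ≠ ⊥) →
          Complex.exp ((s.map fun P => Complex.log (τ (g P))).sum) = τ ((s.map g).prod) := by
        intro s
        induction s using Multiset.induction_on with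
        | empty =>
          intro _
          simp
        | cons P s ih =>
          intro hs
          rw [Multiset.map_cons, Multiset.sum_cons, Complex.exp_add,
            ih fun Q hQ => hs Q (Multiset.mem_cons_of_mem hQ), Multiset.map_cons,
            Multiset.prod_cons, map_mul,
            Complex.exp_log (hg0 P (hs P (Multiset.mem_cons_self _ _)))]
      exact h2 _ fun P hP => (prime_of_normalized_factor P hP).ne_zero

section
variable {τ : 𝓞 K →+* ℂ} {L : Ideal (𝓞 K) → ℂ}

theorem LogData.pow (h : LogData τ L) {I : Ideal (𝓞 K)} (hI : I ≠ ⊥) (n : ℕ) :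
    L (I ^ n) = n * L I := by
  have h1 : L 1 = 0 := by
    have h2 := h.mul 1 1 one_ne_zero one_ne_zero
    rw [one_mul] at h2
    linear_combination (-1 : ℂ) * h2
  induction n with
  | zero => rw [pow_zero, h1, Nat.cast_zero, zero_mul]
  | succ n ih =>
    rw [pow_succ, h.mul _ _ (pow_ne_zero n hI) hI, ih]
    push_cast
    ring

theorem LogData.prod (h : LogData τ L) {ι : Type} (s : Finset ι) (I : ι → Ideal (𝓞 K))
    (hI : ∀ i ∈ s, I i ≠ ⊥) : L (∏ i ∈ s, I i) = ∑ i ∈ s, L (I i) := by
  classical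
  have h1 : L 1 = 0 := by
    have h2 := h.mul 1 1 one_ne_zero one_ne_zero
    rw [one_mul] at h2
    linear_combination (-1 : ℂ) * h2
  induction s using Finset.induction_on with
  | empty => rw [prod_empty, sum_empty, h1]
  | insert a s ha ih =>
    rw [prod_insert ha, sum_insert ha, h.mul _ _ (hI a (mem_insert_self a s))
      (prod_ne_zero_iff.2 fun i hi => hI i (mem_insert_of_mem hi)),
      ih fun i hi => hI i (mem_insert_of_mem hi)]

theorem LogData.alg (h : LogData τ L) {I : Ideal (𝓞 K)} (hI : I ≠ ⊥) :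
    IsAlgebraic ℚ (Complex.exp (L I)) := by
  obtain ⟨γ, -, e⟩ := h.gen I hI
  rw [e]
  have h1 : IsIntegral ℤ γ := IsIntegralClosure.isIntegral ℤ K γ
  have h2 : IsIntegral ℤ (τ γ) := h1.map τ.toIntAlgHom
  exact (h2.tower_top (A := ℚ)).isAlgebraic

theorem LogData.mem_Lt (h : LogData τ L) {I : Ideal (𝓞 K)} (hI : I ≠ ⊥) : L I ∈ Lt :=
  Submodule.subset_span (Or.inr (h.alg hI))

theorem LogData.inj (h : LogData τ L) (hτ : Function.Injective τ) {I J : Ideal (𝓞 K)}
    (hI : I ≠ ⊥) (hJ : J ≠ ⊥) (e : L I = L J) : I = J := by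
  obtain ⟨γ, h1, h2⟩ := h.gen I hI
  obtain ⟨δ, h3, h4⟩ := h.gen J hJ
  have h5 : γ = δ := hτ (by rw [← h2, ← h4, e])
  have h6 : I ^ classNumber K = J ^ classNumber K := by rw [← h1, ← h3, h5]
  exact (pow_left_injective (NumberField.classNumber_ne_zero K)) h6

/-- All logarithms of elements with `(β) = I ^ m`. -/
theorem LogData.log_mem (h : LogData τ L) {I : Ideal (𝓞 K)}
    (hI : I ≠ ⊥) {m : ℕ} (hm : 1 ≤ m) {β : 𝓞 K} (hβ : Ideal.span {β} = I ^ m) {z : ℂ}
    (hz : Complex.exp z = τ β) : ∃ q : Qa, q ≠ 0 ∧ z - q * L I ∈ U0 τ := by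
  obtain ⟨γ, h1, h2⟩ := h.gen I hI
  have hc : (classNumber K : ℂ) ≠ 0 := by exact_mod_cast NumberField.classNumber_ne_zero K
  have hcq : (classNumber K : Qa) ≠ 0 := by exact_mod_cast NumberField.classNumber_ne_zero K
  have h3 : Ideal.span {β ^ classNumber K} = Ideal.span {γ ^ m} := by
    rw [← Ideal.span_singleton_pow, ← Ideal.span_singleton_pow, hβ, h1, ← pow_mul, ← pow_mul,
      mul_comm]
  obtain ⟨u, hu⟩ := Ideal.span_singleton_eq_span_singleton.1 h3.symm
  have h4 : classNumber K * z - m * L I ∈ U0 τ := by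
    refine Submodule.subset_span ⟨u, ?_⟩
    rw [Complex.exp_sub, Complex.exp_nat_mul, Complex.exp_nat_mul, hz, h2, ← map_pow, ← map_pow,
      ← hu, map_mul]
    have h5 : τ (γ ^ m) ≠ 0 := by
      rw [map_pow, ← h2]
      exact pow_ne_zero _ (Complex.exp_ne_zero _)
    rw [mul_comm, mul_div_assoc, div_self h5, mul_one]
  refine ⟨(m : Qa) / classNumber K, ?_, ?_⟩
  · refine div_ne_zero ?_ hcq
    exact_mod_cast (by omega : m ≠ 0)
  · have h5 := (U0 τ).smul_mem ((classNumber K : Qa)⁻¹) h4
    have h6 : ((classNumber K : Qa)⁻¹) • (classNumber K * z - m * L I) =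
        z - (((m : Qa) / classNumber K : Qa) : ℂ) * L I := by
      rw [Algebra.smul_def]
      have h7 : algebraMap Qa ℂ ((classNumber K : Qa)⁻¹) = (classNumber K : ℂ)⁻¹ := by
        rw [map_inv₀, map_natCast]
      have h8 : (((m : Qa) / classNumber K : Qa) : ℂ) = (m : ℂ) / classNumber K := by
        have h9 : algebraMap Qa ℂ ((m : Qa) / classNumber K) = (m : ℂ) / classNumber K := by
          rw [map_div₀, map_natCast, map_natCast]
        exact h9
      rw [h7, h8]
      field_simp
    rwa [h6] at h5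

/-- Logarithms of different prime ideals are independent. -/
theorem LogData.li (h : LogData τ L) (hτ : Function.Injective τ) {ι : Type} [Finite ι]
    (P : ι → Ideal (𝓞 K)) (hP : ∀ i, Prime (P i)) (hinj : Function.Injective P) :
    LinearIndependent Qa fun i => L (P i) := by
  classical
  have : Fintype ι := Fintype.ofFinite ι
  refine MP60829e.FZ.baker_fin _ (fun i => h.alg (hP i).ne_zero) ?_
  -- independence over `ℤ`
  have hZ : LinearIndependent ℤ fun i => L (P i) := by
    rw [Fintype.linearIndependent_iff]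
    intro n hn i
    have h1 : ∑ i, ((n i).toNat : ℂ) * L (P i) = ∑ i, ((-n i).toNat : ℂ) * L (P i) := by
      rw [← sub_eq_zero, ← Finset.sum_sub_distrib, ← hn]
      refine Finset.sum_congr rfl fun i _ => ?_
      rw [← sub_mul, zsmul_eq_mul]
      congr 1
      have h2 : ((n i).toNat : ℤ) - ((-n i).toNat : ℤ) = n i := by omega
      exact_mod_cast congrArg (Int.cast : ℤ → ℂ) h2
    have h2 : ∀ k : ι → ℕ, L (∏ i, P i ^ k i) = ∑ i, (k i : ℂ) * L (P i) := by
      intro k
      rw [h.prod _ _ fun i _ => pow_ne_zero _ (hP i).ne_zero]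
      exact Finset.sum_congr rfl fun i _ => h.pow (hP i).ne_zero _
    rw [← h2, ← h2] at h1
    have h3 := h.inj hτ (prod_ne_zero_iff.2 fun i _ => pow_ne_zero _ (hP i).ne_zero)
      (prod_ne_zero_iff.2 fun i _ => pow_ne_zero _ (hP i).ne_zero) h1
    have h4 : ∀ (k : ι → ℕ), Multiset.count (P i) (normalizedFactors (∏ i, P i ^ k i)) = k i := by
      intro k
      have h5 : normalizedFactors (∏ i, P i ^ k i) = ∑ i, (k i) • ({P i} : Multiset _) := by
        have h6 : ∀ s : Finset ι, normalizedFactors (∏ i ∈ s, P i ^ k i) =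
            ∑ i ∈ s, (k i) • ({P i} : Multiset _) := by
          intro s
          induction s using Finset.induction_on with
          | empty => rw [prod_empty, sum_empty, normalizedFactors_one]
          | insert a s ha ih =>
            rw [prod_insert ha, sum_insert ha, normalizedFactors_mul
              (pow_ne_zero _ (hP a).ne_zero) (prod_ne_zero_iff.2 fun i _ =>
              pow_ne_zero _ (hP i).ne_zero), ih, normalizedFactors_pow,
              normalizedFactors_irreducible (hP a).irreducible, normalize_eq]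
        exact h6 _
      rw [h5, Multiset.count_sum']
      rw [Finset.sum_eq_single i]
      · rw [Multiset.count_nsmul, Multiset.count_singleton_self, mul_one]
      · intro b _ hb
        rw [Multiset.count_nsmul, Multiset.count_singleton, if_neg fun e => hb (hinj e).symm,
          mul_zero]
      · intro h7
        exact absurd (mem_univ i) h7
    have h5 := congrArg (fun I => Multiset.count (P i) (normalizedFactors I)) h3
    rw [h4, h4] at h5
    omega
  exact (LinearIndependent.iff_fractionRing ℤ ℚ).1 hZ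

/-- The differences of the logarithms of `T + 1` different prime ideals. -/
theorem LogData.li_diff (h : LogData τ L) (hτ : Function.Injective τ) {T : ℕ}
    (P : Fin (T + 1) → Ideal (𝓞 K)) (hP : ∀ i, Prime (P i)) (hinj : Function.Injective P) :
    LinearIndependent Qa fun a : Fin T => L (P a.succ) - L (P 0) := by
  have h1 := h.li hτ P hP hinj
  rw [Fintype.linearIndependent_iff] at h1 ⊢
  intro g hg a
  have h2 := h1 (Fin.cons (-∑ a, g a) g) (by
    rw [Fin.sum_univ_succ]
    simp only [Fin.cons_zero, Fin.cons_succ]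
    rw [← hg]
    simp only [smul_sub, Finset.sum_sub_distrib, neg_smul, Finset.sum_smul]
    ring) a.succ
  rwa [Fin.cons_succ] at h2

end

end MP60829e.ZK
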