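import Mathlib
import Pool.Agent.Lib.MP_60829e_nt.ZK.NF
import Pool.Agent.Lib.MP_60829e_nt.ZK.Logs
import Pool.Agent.Lib.MP_60829e_nt.ZL.RowN

/-! # Theorem ZK: logarithms of ideals -/

open Finset NumberField IsDedekindDomain Module

namespace MP60829e.ZK

open MP60829e.ST (Qa Lt)

variable (K : Type) [Field K] [NumberField K] (σ : K →+* ℂ)

/-- a generator of the power `x ^ h`, `h` the class number -/
noncomputable def gen (x : Pr K) : 𝓞 K := by
  classical
  exact if h : ∃ g : 𝓞 K, Ideal.span {g} = x.asIdeal ^ classNumber K then h.choose else 1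

theorem span_gen (x : Pr K) : Ideal.span {gen K x} = x.asIdeal ^ classNumber K := by
  have h1 : ClassGroup.mk0 ⟨x.asIdeal, mem_nonZeroDivisors_of_ne_zero x.ne_bot⟩ ^
      classNumber K = 1 := by
    unfold classNumber
    exact pow_card_eq_one
  rw [← map_pow] at h1
  have h2 := (ClassGroup.mk0_eq_one_iff (pow_mem (mem_nonZeroDivisors_of_ne_zero x.ne_bot)
    (classNumber K))).1 h1
  obtain ⟨γ, hγ⟩ := h2.principal
  have h : ∃ g : 𝓞 K, Ideal.span {g} = x.asIdeal ^ classNumber K := ⟨γ, hγ.symm⟩
  unfold gen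
  rw [dif_pos h]
  exact h.choose_spec

theorem gen_ne_zero (x : Pr K) : gen K x ≠ 0 := by
  intro h
  have h1 := span_gen K x
  rw [h, Ideal.span_singleton_eq_bot.2 rfl] at h1
  exact pow_ne_zero _ x.ne_bot h1.symm

theorem map_ne_zero' {β : 𝓞 K} (hβ : β ≠ 0) : σ (β : K) ≠ 0 := by
  rw [map_ne_zero]
  exact_mod_cast hβ

/-- the logarithm of an element of the monoid: `∑ a x * log (gen x)` -/
noncomputable def lgK (a : Pr K →₀ ℕ) : ℂ :=
  a.sum fun x k => (k : ℂ) * Complex.log (σ (gen K x : K))

theorem lgK_add (a b : Pr K →₀ ℕ) : lgK K σ (a + b) = lgK K σ a + lgK K σ b := by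
  classical
  unfold lgK
  refine Finsupp.sum_add_index' (fun _ => ?_) (fun _ _ _ => ?_)
  · rw [Nat.cast_zero, zero_mul]
  · rw [Nat.cast_add, add_mul]

theorem lgK_single (x : Pr K) : lgK K σ (Finsupp.single x 1) = Complex.log (σ (gen K x : K)) := by
  unfold lgK
  rw [Finsupp.sum_single_index (by rw [Nat.cast_zero, zero_mul]), Nat.cast_one, one_mul]

/-- the logarithm is the logarithm of the product of the generators -/
theorem exp_lgK (a : Pr K →₀ ℕ) :
    Complex.exp (lgK K σ a) = σ ((a.prod fun x k => gen K x ^ k : 𝓞 K) : K) := by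
  classical
  unfold lgK Finsupp.sum Finsupp.prod
  rw [Complex.exp_sum]
  have h1 : ((∏ x ∈ a.support, gen K x ^ a x : 𝓞 K) : K) =
      ∏ x ∈ a.support, (gen K x : K) ^ a x := by
    simp
  rw [h1, map_prod]
  refine Finset.prod_congr rfl fun x _ => ?_
  rw [Complex.exp_nat_mul, Complex.exp_log (map_ne_zero' K σ (gen_ne_zero K x)), map_pow]

theorem span_prod (a : Pr K →₀ ℕ) :
    Ideal.span {(a.prod fun x k => gen K x ^ k : 𝓞 K)} = toI K a ^ classNumber K := by
  classical
  unfold toI Finsupp.prod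
  rw [← Finset.prod_pow]
  have h1 : ∀ s : Finset (Pr K), Ideal.span {∏ x ∈ s, gen K x ^ a x} =
      ∏ x ∈ s, (x.asIdeal ^ a x) ^ classNumber K := by
    intro s
    induction s using Finset.induction_on with
    | empty => rw [prod_empty, prod_empty, Ideal.span_singleton_one, Ideal.one_eq_top]
    | insert x s hx ih =>
      rw [prod_insert hx, prod_insert hx, ← Ideal.span_singleton_mul_span_singleton, ih,
        ← Ideal.span_singleton_pow, span_gen, ← pow_mul, ← pow_mul, mul_comm (classNumber K)]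
  exact h1 _

theorem isAlgebraic_int (β : 𝓞 K) : IsAlgebraic ℚ (σ (β : K)) := by
  have h1 : IsIntegral ℤ β := IsIntegralClosure.isIntegral ℤ K β
  have h2 : IsIntegral ℤ ((σ.comp (algebraMap (𝓞 K) K)) β) :=
    h1.map (σ.comp (algebraMap (𝓞 K) K)).toIntAlgHom
  exact (h2.tower_top (A := ℚ)).isAlgebraic

theorem lgK_mem (a : Pr K →₀ ℕ) : lgK K σ a ∈ Lt := by
  refine Submodule.subset_span (Or.inr ?_)
  show IsAlgebraic ℚ (Complex.exp (lgK K σ a))
  rw [exp_lgK]
  exact isAlgebraic_int K σ _

/-- The logarithms of the generators are linearly independent over `ℚ`. PROOF: a relation with integer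
coefficients gives `∏ gen x ^ n x = ∏ gen x ^ m x` in `K` (`σ` is injective), so two equal ideals. -/
theorem lin_gen : LinearIndependent ℚ fun x : Pr K => Complex.log (σ (gen K x : K)) := by
  classical
  have hinj : ∀ a b : Pr K →₀ ℕ, lgK K σ a = lgK K σ b → a = b := by
    intro a b h
    have h1 : (a.prod fun x k => gen K x ^ k : 𝓞 K) = b.prod fun x k => gen K x ^ k := by
      have h2 := congrArg Complex.exp h
      rw [exp_lgK, exp_lgK] at h2
      exact RingOfIntegers.coe_injective (σ.injective h2)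
    have h2 : toI K a ^ classNumber K = toI K b ^ classNumber K := by
      rw [← span_prod, ← span_prod, h1]
    exact toI_injective K ((pow_left_injective (NumberField.classNumber_ne_zero K)) h2)
  have hZ : LinearIndependent ℤ fun x : Pr K => Complex.log (σ (gen K x : K)) := by
    rw [linearIndependent_iff']
    intro s n hn x hx
    obtain ⟨a, ha⟩ : ∃ a : Pr K →₀ ℕ, a = Finsupp.onFinset s
        (fun y => if y ∈ s then (n y).toNat else 0) (fun y hy => by
          by_contra hcon
          exact hy (if_neg hcon)) := ⟨_, rfl⟩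
    obtain ⟨b, hb⟩ : ∃ b : Pr K →₀ ℕ, b = Finsupp.onFinset s
        (fun y => if y ∈ s then (-n y).toNat else 0) (fun y hy => by
          by_contra hcon
          exact hy (if_neg hcon)) := ⟨_, rfl⟩
    have hla : lgK K σ a = ∑ y ∈ s, ((n y).toNat : ℂ) * Complex.log (σ (gen K y : K)) := by
      unfold lgK
      rw [ha, Finsupp.onFinset_sum _ fun _ => by rw [Nat.cast_zero, zero_mul]]
      exact Finset.sum_congr rfl fun y hy => by rw [if_pos hy]
    have hlb : lgK K σ b = ∑ y ∈ s, ((-n y).toNat : ℂ) * Complex.log (σ (gen K y : K)) := by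
      unfold lgK
      rw [hb, Finsupp.onFinset_sum _ fun _ => by rw [Nat.cast_zero, zero_mul]]
      exact Finset.sum_congr rfl fun y hy => by rw [if_pos hy]
    have h1 : lgK K σ a = lgK K σ b := by
      rw [hla, hlb, ← sub_eq_zero, ← Finset.sum_sub_distrib, ← hn]
      refine Finset.sum_congr rfl fun y _ => ?_
      rw [← sub_mul, zsmul_eq_mul]
      congr 1
      have h2 : ((n y).toNat : ℤ) - ((-n y).toNat : ℤ) = n y := by omega
      exact_mod_cast congrArg (Int.cast : ℤ → ℂ) h2
    have h2 := DFunLike.congr_fun (hinj a b h1) x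
    rw [ha, hb, Finsupp.onFinset_apply, Finsupp.onFinset_apply, if_pos hx, if_pos hx] at h2
    omega
  exact (LinearIndependent.iff_fractionRing ℤ ℚ).1 hZ

/-- The differences of the logarithms of `T + 1` different primes, with `0`, are a row. PROOF: `lin_gen`,
Baker (`SK.finrank_row`, see `ZL.row_rowSet`). -/
theorem row_gen {T : ℕ} (q : Fin (T + 1) → Pr K) (hq : Function.Injective q) :
    ZL.Row T (Set.range fun a => lgK K σ (Finsupp.single (q a) 1) -
      lgK K σ (Finsupp.single (q 0) 1)) := by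
  have h1 : LinearIndependent Qa fun a : Fin (T + 1) => lgK K σ (Finsupp.single (q a) 1) := by
    refine MP60829e.FZ.baker_fin _ (fun a => ?_) ?_
    · rw [exp_lgK]
      exact isAlgebraic_int K σ _
    · have h2 := (lin_gen K σ).comp q hq
      have h3 : (fun a : Fin (T + 1) => lgK K σ (Finsupp.single (q a) 1)) =
          (fun x : Pr K => Complex.log (σ (gen K x : K))) ∘ q := by
        funext a
        exact lgK_single K σ (q a)
      rw [h3]
      exact h2
  have h2 : LinearIndependent Qa fun a : Fin T =>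
      lgK K σ (Finsupp.single (q a.succ) 1) - lgK K σ (Finsupp.single (q 0) 1) := by
    rw [Fintype.linearIndependent_iff] at h1 ⊢
    intro g hg a
    have h2 := h1 (Fin.cons (-∑ a, g a) g) (by
      rw [Fin.sum_univ_succ]
      simp only [Fin.cons_zero, Fin.cons_succ]
      rw [← hg]
      simp only [smul_sub, Finset.sum_sub_distrib, neg_smul, Finset.sum_smul]
      ring) a.succ
    rwa [Fin.cons_succ] at h2
  refine ⟨⟨0, by simp⟩, ?_, fun V hV hVT => ?_⟩
  · rintro _ ⟨a, rfl⟩
    exact Lt.sub_mem (lgK_mem K σ _) (lgK_mem K σ _)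
  · by_contra hcon
    push Not at hcon
    have h3 : Submodule.span Qa (Set.range fun a : Fin T =>
        lgK K σ (Finsupp.single (q a.succ) 1) - lgK K σ (Finsupp.single (q 0) 1)) ≤ V := by
      rw [Submodule.span_le]
      rintro _ ⟨a, rfl⟩
      exact hcon _ ⟨a.succ, rfl⟩
    have h4 := Submodule.finrank_mono h3
    rw [finrank_span_eq_card h2, Fintype.card_fin] at h4
    omega

/-- The logarithms of the units are in a finite-dimensional space `U`, and each logarithm of a generator
of `I ^ m` is in `(m / h) * lgK I + U`. PROOF: `U` is the span of `2 π i` and of logarithms of finitely many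
generators of the group of units; if `span {β} = (toI a) ^ m` then `β ^ h = u * ∏ (gen x) ^ (m * a x)` with a
unit `u`. -/
theorem exists_U : ∃ U : Submodule Qa ℂ, FiniteDimensional Qa U ∧
    ∀ (a : Pr K →₀ ℕ) (m : ℕ) (β : 𝓞 K) (l : ℂ), Ideal.span {β} = toI K a ^ m →
      Complex.exp l = σ (β : K) →
      l - ((m : ℂ) / classNumber K) * lgK K σ a ∈ U := by
  refine ⟨U0 (σ.comp (algebraMap (𝓞 K) K)), U0_finite _, fun a m β l hβ hl => ?_⟩
  obtain ⟨γ, hγ⟩ : ∃ γ : 𝓞 K, γ = a.prod fun x k => gen K x ^ k := ⟨_, rfl⟩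
  have h1 := span_prod K a
  have h2 := exp_lgK K σ a
  rw [← hγ] at h1 h2
  have hcq : (classNumber K : Qa) ≠ 0 := by exact_mod_cast NumberField.classNumber_ne_zero K
  have hc : (classNumber K : ℂ) ≠ 0 := by exact_mod_cast NumberField.classNumber_ne_zero K
  have h3 : Ideal.span {β ^ classNumber K} = Ideal.span {γ ^ m} := by
    rw [← Ideal.span_singleton_pow, ← Ideal.span_singleton_pow, hβ, h1, ← pow_mul, ← pow_mul,
      mul_comm]
  obtain ⟨u, hu⟩ := Ideal.span_singleton_eq_span_singleton.1 h3.symm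
  have h4 : classNumber K * l - m * lgK K σ a ∈ U0 (σ.comp (algebraMap (𝓞 K) K)) := by
    refine Submodule.subset_span ⟨u, ?_⟩
    have h6 : ((β ^ classNumber K : 𝓞 K) : K) = ((γ ^ m : 𝓞 K) : K) * ((u : 𝓞 K) : K) := by
      rw [← hu]
      simp
    have h5 : σ (γ : K) ^ m ≠ 0 := by
      rw [← h2]
      exact pow_ne_zero _ (Complex.exp_ne_zero _)
    have h7 : σ (β : K) ^ classNumber K = σ (γ : K) ^ m * σ ((u : 𝓞 K) : K) := by
      have h8 := congrArg σ h6
      rw [map_mul] at h8
      simpa using h8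
    rw [Complex.exp_sub, Complex.exp_nat_mul, Complex.exp_nat_mul, hl, h2, h7, mul_comm,
      mul_div_assoc, div_self h5, mul_one]
    rfl
  have h5 := (U0 (σ.comp (algebraMap (𝓞 K) K))).smul_mem ((classNumber K : Qa)⁻¹) h4
  have h6 : ((classNumber K : Qa)⁻¹) • (classNumber K * l - m * lgK K σ a) =
      l - ((m : ℂ) / classNumber K) * lgK K σ a := by
    rw [Algebra.smul_def]
    have h7 : algebraMap Qa ℂ ((classNumber K : Qa)⁻¹) = (classNumber K : ℂ)⁻¹ := by
      rw [map_inv₀, map_natCast]
    rw [h7]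
    field_simp
  rwa [h6] at h5

end MP60829e.ZK
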