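import Mathlib
import Pool.Agent.Lib.MP_60829e_nt.ZK.Fam
import Pool.Agent.Lib.MP_60829e_nt.ZK.Lg
import Pool.Agent.Lib.MP_60829e_nt.ZK.Cnt
import Pool.Agent.Lib.MP_60829e_nt.ZK.NFa

/-! # Theorem ZK: the family of the ideals of a number field -/

open Finset NumberField IsDedekindDomain Module

namespace MP60829e.ZK

variable (K : Type) [Field K] [NumberField K] (σ : K →+* ℂ)

/-- The sum of logarithms of a box element. -/
private theorem lgK_box {r : ℕ} (a : Pr K →₀ ℕ) (b : Fin r → Pr K →₀ ℕ) (s : Finset (Fin r)) :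
    lgK K σ (a + ∑ i ∈ s, b i) = lgK K σ a + ∑ i ∈ s, lgK K σ (b i) := by
  classical
  induction s using Finset.induction_on with
  | empty => simp
  | insert i s hi ih =>
    rw [Finset.sum_insert hi, Finset.sum_insert hi, add_left_comm, lgK_add, ih]
    ring

/-- PROOF: `exists_ar`, `count_gridFree`, `row_gen`, as `ZL.gridFree_of_good`. -/
theorem exists_fam : ∃ Φ : Fam (Pr K →₀ ℕ), Φ.x = lgK K σ ∧
    ∀ B a, a ∈ Φ.S B ↔ Ideal.absNorm (toI K a) ≤ B := by
  classical
  obtain ⟨𝔸, h𝔸⟩ := exists_ar K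
  refine ⟨⟨fun B => 𝔸.el B, lgK K σ, 𝔸.A, fun B hB => 𝔸.card_el hB, fun a => lgK_mem K σ a, ?_⟩,
    rfl, ?_⟩
  · intro r T hr hT
    obtain ⟨C, hC⟩ := count_gridFree 𝔸 r (T + 1) hr (by omega)
    refine ⟨C, fun P hP B hB => ?_⟩
    have hfree : GridFree r (T + 1) {a : Pr K →₀ ℕ | ¬ P (lgK K σ a)} := by
      intro m q hq
      obtain ⟨y, hy, hPy⟩ := hP
        (lgK K σ (m + ∑ i, Finsupp.single (q i 0) 1))
        (fun i => Set.range fun a => lgK K σ (Finsupp.single (q i a) 1) -
          lgK K σ (Finsupp.single (q i 0) 1))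
        (lgK_mem K σ _) (fun i => row_gen K σ (q i) (hq i))
      choose c hc using hy
      refine ⟨c, fun hbad => hbad ?_⟩
      have h1 : lgK K σ (m + ∑ i, Finsupp.single (q i 0) 1) + ∑ i, y i =
          lgK K σ (m + ∑ i, Finsupp.single (q i (c i)) 1) := by
        rw [lgK_box, lgK_box, add_assoc, ← Finset.sum_add_distrib]
        congr 1
        refine Finset.sum_congr rfl fun i _ => ?_
        rw [← hc i]
        simp only
        ring
      rw [← h1]
      exact hPy
    refine le_trans (le_of_eq ?_) (hC _ hfree B hB)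
    congr 2
    ext a
    simp only [Set.mem_ofPred_eq, 𝔸.mem_el]
  · intro B a
    change a ∈ 𝔸.el B ↔ _
    rw [𝔸.mem_el, h𝔸, absNorm_toI]

end MP60829e.ZK
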