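import Mathlib
import Pool.Agent.Lib.MP_60829e_nt.ZK.Fam
import Pool.Agent.Lib.MP_60829e_nt.ZL.Many

/-! # Theorem ZK: tuples of points of a family -/

open Finset Module MvPolynomial

namespace MP60829e.ZK

open MP60829e.ST (Qa Lt)
open MP60829e.ZL (Comb Sx GoodT many finrank_mul_le finrank_pow_le)

/-- The two-space property of a point with several coordinates. -/
def GoodN {n : ℕ} (E : Submodule Qa ℂ) (D : ℕ) (y : Fin n → ℂ) : Prop :=
  ∀ A ≤ E, ∀ F : MvPolynomial (Fin n) ℂ, F.totalDegree ≤ D → (∀ m, F.coeff m ∈ E ⊔ A * Lt) →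
    eval y F = 0 → Comb A D y F

/-- The space for the first variable, when the others are fixed. -/
private noncomputable def EbK {n : ℕ} (E1 E : Submodule Qa ℂ) (D : ℕ) (x : Fin n → ℂ) :
    Submodule Qa ℂ :=
  E1 * (E ⊔ Submodule.span Qa (Set.range x)) ^ D

private theorem finrank_EbK {n : ℕ} (E1 E : Submodule Qa ℂ) [FiniteDimensional Qa E1]
    [FiniteDimensional Qa E] (D : ℕ) (x : Fin n → ℂ) : FiniteDimensional Qa (EbK E1 E D x) ∧
      finrank Qa (EbK E1 E D x) ≤ finrank Qa E1 * (finrank Qa E + n) ^ D := by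
  have h1 : FiniteDimensional Qa (Submodule.span Qa (Set.range x)) :=
    FiniteDimensional.span_of_finite Qa (Set.finite_range _)
  have h2 : finrank Qa (Submodule.span Qa (Set.range x)) ≤ n := by
    refine (finrank_range_le_card _).trans ?_
    rw [Fintype.card_fin]
  obtain ⟨S, hS⟩ : ∃ S, S = E ⊔ Submodule.span Qa (Set.range x) := ⟨_, rfl⟩
  have h3 : FiniteDimensional Qa S := by
    rw [hS]
    infer_instance
  have h4 : finrank Qa S ≤ finrank Qa E + n := by
    rw [hS]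
    exact (Submodule.finrank_add_le_finrank_add_finrank _ _).trans (by omega)
  have h5 : FiniteDimensional Qa ↥(S ^ D) :=
    Module.Finite.iff_fg.2 ((Module.Finite.iff_fg.1 h3).pow D)
  unfold EbK
  rw [← hS]
  refine ⟨Module.Finite.iff_fg.2 ((Module.Finite.iff_fg.1 inferInstance).mul
    (Module.Finite.iff_fg.1 h5)), ?_⟩
  refine (finrank_mul_le _ _).trans (Nat.mul_le_mul_left _ ?_)
  exact (finrank_pow_le S D).trans (Nat.pow_le_pow_left h4 D)

/-- each coordinate is good relative to the following ones -/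
private def GoodK (E1 E : Submodule Qa ℂ) (D : ℕ) : (n : ℕ) → (Fin n → ℂ) → Prop
  | 0, _ => True
  | n + 1, x => ¬ BadP (EbK E1 E D (Fin.tail x)) D (x 0) ∧ GoodK E1 E D n (Fin.tail x)

private theorem goodT_of_goodK {E1 E : Submodule Qa ℂ} {D : ℕ} (h1 : (1 : ℂ) ∈ E)
    (hE : E ≤ E1) : ∀ {n : ℕ} (x y : Fin n → ℂ),
      (∀ i, ∃ q : Qa, q ≠ 0 ∧ y i - q * x i ∈ E) → GoodK E1 E D n x → GoodT E1 D n y := by
  intro n
  induction n with
  | zero => intro x y _ _; trivial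
  | succ n ih =>
    rintro x y hy ⟨hb0, hbt⟩
    refine ⟨?_, ih (Fin.tail x) (Fin.tail y) (fun i => hy i.succ) hbt⟩
    obtain ⟨S, hS⟩ : ∃ S, S = E ⊔ Submodule.span Qa (Set.range (Fin.tail x)) := ⟨_, rfl⟩
    have hSx : Sx (Fin.tail y) ≤ S := by
      unfold Sx
      rw [Submodule.span_le]
      rintro z (hz | ⟨i, rfl⟩)
      · rw [Set.mem_singleton_iff] at hz
        subst hz
        rw [hS]
        exact Submodule.mem_sup_left h1
      · obtain ⟨q, -, hq⟩ := hy i.succ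
        have h2 : Fin.tail y i = (Fin.tail y i - q * x i.succ) + q * x i.succ := by ring
        show Fin.tail y i ∈ S
        rw [h2, hS]
        refine Submodule.add_mem _ (Submodule.mem_sup_left hq) (Submodule.mem_sup_right ?_)
        exact Submodule.smul_mem _ q (Submodule.subset_span ⟨i, rfl⟩)
    have hle : E1 * Sx (Fin.tail y) ^ D ≤ EbK E1 E D (Fin.tail x) := by
      unfold EbK
      rw [← hS]
      exact mul_le_mul' le_rfl (pow_le_pow_left' hSx D)
    have h1S : (1 : ℂ) ∈ S ^ D := by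
      have h3 : (1 : Submodule Qa ℂ) ≤ S := by
        rw [Submodule.one_le, hS]
        exact Submodule.mem_sup_left h1
      exact Submodule.one_le.1 (one_le_pow_of_one_le' h3 D)
    have hEEb : E ≤ EbK E1 E D (Fin.tail x) := by
      unfold EbK
      rw [← hS]
      intro a ha
      rw [← mul_one a]
      exact Submodule.mul_mem_mul (hE ha) h1S
    intro A hA F hF hd h0
    obtain ⟨q, hq0, hq⟩ := hy 0
    obtain ⟨h, hh⟩ : ∃ h, h = y 0 - q * x 0 := ⟨_, rfl⟩
    rw [← hh] at hq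
    have hy0 : y 0 = q * x 0 + h := by rw [hh]; ring
    by_contra hcon
    refine hb0 ⟨q, hq0, h, hEEb hq, A, hA.trans hle, F, fun j => ?_, hd, ?_, ?_⟩
    · exact (sup_le_sup hle le_rfl : _ ≤ EbK E1 E D (Fin.tail x) ⊔ A * Lt) (hF j)
    · rw [← hy0]
      exact h0
    · rw [← hy0]
      exact hcon

/-- A good tuple is not bad. -/
private theorem goodN_of_goodK {E : Submodule Qa ℂ} {n D : ℕ} (h1 : (1 : ℂ) ∈ E)
    (x y : Fin n → ℂ) (hx : ∀ i, x i ∈ Lt) (hb : GoodK (E * E) E D n x)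
    (hy : ∀ i, ∃ q : Qa, q ≠ 0 ∧ y i - q * x i ∈ E) : GoodN E D y := by
  intro A hA F hFd hFc h0
  have hEE : E ≤ E * E := by
    intro a ha
    rw [← mul_one a]
    exact Submodule.mul_mem_mul ha h1
  refine many (E * E) E hEE y (fun i a ha => ?_) (goodT_of_goodK h1 hEE x y hy hb) A hA F hFd
    (fun m => ?_) h0
  · obtain ⟨q, -, hq⟩ := hy i
    have h2 : y i * a = (y i - q * x i) * a + a * (q * x i) := by ring
    rw [h2]
    refine Submodule.add_mem _ (Submodule.mem_sup_left (Submodule.mul_mem_mul hq ha))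
      (Submodule.mem_sup_right (Submodule.mul_mem_mul (Submodule.mem_span_singleton_self a) ?_))
    exact Submodule.smul_mem _ q (hx i)
  · exact (sup_le_sup hEE le_rfl : _ ≤ E * E ⊔ A * Lt) (hFc m)

section
variable {ι : Type} (Φ : Fam ι)

/-- the tuples which are not good -/
private def BadK (E1 E : Submodule Qa ℂ) (D B n : ℕ) : Set (Fin n → ι) :=
  {b | (∀ i, b i ∈ Φ.S B) ∧ ¬ GoodK E1 E D n fun i => Φ.x (b i)}

private theorem badK_finite (E1 E : Submodule Qa ℂ) (D B n : ℕ) :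
    (BadK Φ E1 E D B n).Finite := by
  classical
  refine (Finset.finite_toSet (Fintype.piFinset (fun _ : Fin n => Φ.S B))).subset ?_
  intro b hb
  rw [mem_coe, Fintype.mem_piFinset]
  exact hb.1

private theorem cardK_step (E1 E : Submodule Qa ℂ) (D B n : ℕ) (hB : 1 ≤ B) (c : ℝ)
    (hc0 : 0 ≤ c) (hc : ∀ x : Fin n → ℂ,
      ({i : ι | i ∈ Φ.S B ∧ BadP (EbK E1 E D x) D (Φ.x i)}.ncard : ℝ) ≤ c) :
    ((BadK Φ E1 E D B (n + 1)).ncard : ℝ) ≤
      (Φ.A * B) * (BadK Φ E1 E D B n).ncard + (Φ.A * B) ^ n * c := by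
  classical
  have hcard : ((Φ.S B).card : ℝ) ≤ Φ.A * B := by exact_mod_cast Φ.card_le B hB
  obtain ⟨cube, hcube⟩ : ∃ cube : Finset (Fin (n + 1) → ι),
    cube = Fintype.piFinset (fun _ => Φ.S B) := ⟨_, rfl⟩
  obtain ⟨S1, hS1⟩ : ∃ S1 : Finset (Fin (n + 1) → ι),
    S1 = cube.filter (fun b => (Fin.tail b : Fin n → ι) ∈ BadK Φ E1 E D B n) := ⟨_, rfl⟩
  obtain ⟨S2, hS2⟩ : ∃ S2 : Finset (Fin (n + 1) → ι),
    S2 = cube.filter (fun b => BadP (EbK E1 E D (fun i : Fin n => Φ.x (b i.succ))) D (Φ.x (b 0))) :=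
    ⟨_, rfl⟩
  have hsub : BadK Φ E1 E D B (n + 1) ⊆ ((S1 ∪ S2 : Finset (Fin (n + 1) → ι)) : Set _) := by
    intro b hb
    have hbc : b ∈ cube := by
      rw [hcube, Fintype.mem_piFinset]
      exact hb.1
    rw [mem_coe, mem_union, hS1, hS2, mem_filter, mem_filter]
    by_contra hcon
    push Not at hcon
    have h1 := hcon.1 hbc
    have h2 := hcon.2 hbc
    refine hb.2 ⟨h2, ?_⟩
    by_contra h3
    exact h1 ⟨fun i => hb.1 i.succ, h3⟩
  have hcard' : ((BadK Φ E1 E D B (n + 1)).ncard : ℝ) ≤ (S1.card : ℝ) + S2.card := by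
    have h1 : (BadK Φ E1 E D B (n + 1)).ncard ≤ (S1 ∪ S2).card := by
      rw [← Set.ncard_coe_finset]
      exact Set.ncard_le_ncard hsub (Finset.finite_toSet _)
    exact_mod_cast h1.trans (card_union_le _ _)
  have h1 : (S1.card : ℝ) ≤ (Φ.A * B) * (BadK Φ E1 E D B n).ncard := by
    have hfin := badK_finite Φ E1 E D B n
    have h2 : S1.card ≤ (Φ.S B ×ˢ hfin.toFinset).card := by
      refine Finset.card_le_card_of_injOn (fun b => (b 0, Fin.tail b)) ?_ ?_
      · intro b hb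
        rw [mem_coe, hS1, mem_filter, hcube, Fintype.mem_piFinset] at hb
        rw [mem_coe, mem_product]
        exact ⟨hb.1 0, hfin.mem_toFinset.mpr hb.2⟩
      · intro b _ b' _ h
        have h3 : b 0 = b' 0 := (Prod.mk.inj h).1
        have h4 : Fin.tail b = Fin.tail b' := (Prod.mk.inj h).2
        rw [← Fin.cons_self_tail b, ← Fin.cons_self_tail b', h3, h4]
    rw [card_product, ← Set.ncard_eq_toFinset_card _ hfin] at h2
    have h3 : (S1.card : ℝ) ≤ (Φ.S B).card * (BadK Φ E1 E D B n).ncard := by exact_mod_cast h2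
    exact h3.trans (mul_le_mul_of_nonneg_right hcard (Nat.cast_nonneg _))
  have h2 : (S2.card : ℝ) ≤ (Φ.A * B) ^ n * c := by
    obtain ⟨W, hW⟩ : ∃ W : (Fin n → ι) → Finset ι, ∀ b' i, i ∈ W b' ↔
        i ∈ Φ.S B ∧ BadP (EbK E1 E D (fun i => Φ.x (b' i))) D (Φ.x i) :=
      ⟨fun b' => (Φ.S B).filter fun i => BadP (EbK E1 E D (fun i => Φ.x (b' i))) D (Φ.x i),
        fun b' i => mem_filter⟩
    have h3 : S2.card ≤ ((Fintype.piFinset (fun _ : Fin n => Φ.S B)).sigma W).card := by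
      refine Finset.card_le_card_of_injOn
        (fun b => (⟨Fin.tail b, b 0⟩ : (_ : Fin n → ι) × ι)) ?_ ?_
      · intro b hb
        rw [mem_coe, hS2, mem_filter, hcube, Fintype.mem_piFinset] at hb
        rw [mem_coe, mem_sigma, Fintype.mem_piFinset]
        exact ⟨fun i => hb.1 i.succ, (hW _ _).2 ⟨hb.1 0, hb.2⟩⟩
      · intro b _ b' _ h
        simp only [Sigma.mk.injEq, heq_eq_eq] at h
        rw [← Fin.cons_self_tail b, ← Fin.cons_self_tail b', h.1, h.2]
    rw [card_sigma] at h3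
    have h4 : ∀ b' : Fin n → ι, ((W b').card : ℝ) ≤ c := by
      intro b'
      have h5 := hc fun i => Φ.x (b' i)
      have h6 : {i : ι | i ∈ Φ.S B ∧ BadP (EbK E1 E D fun i => Φ.x (b' i)) D (Φ.x i)} =
          ((W b' : Finset ι) : Set ι) := by
        ext i
        rw [mem_coe, hW]
        exact Iff.rfl
      rwa [h6, Set.ncard_coe_finset] at h5
    have h5 : (S2.card : ℝ) ≤ ∑ b' ∈ Fintype.piFinset (fun _ : Fin n => Φ.S B), c := by
      refine le_trans ?_ (Finset.sum_le_sum fun b' _ => h4 b')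
      exact_mod_cast h3
    rw [sum_const, nsmul_eq_mul, Fintype.card_piFinset_const, Nat.cast_pow] at h5
    refine h5.trans (mul_le_mul_of_nonneg_right ?_ hc0)
    exact pow_le_pow_left₀ (Nat.cast_nonneg _) hcard n
  linarith

private theorem cardK_all (E1 E : Submodule Qa ℂ) (D B : ℕ) (hB : 1 ≤ B) (hcB : ℝ)
    (hcB0 : 0 ≤ hcB) (N : ℕ) (hc : ∀ n < N, ∀ x : Fin n → ℂ,
      ({i : ι | i ∈ Φ.S B ∧ BadP (EbK E1 E D x) D (Φ.x i)}.ncard : ℝ) ≤ hcB * B) :
    ∀ n ≤ N, ((BadK Φ E1 E D B n).ncard : ℝ) ≤ n * hcB * (Φ.A + 1) ^ n * B ^ n := by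
  intro n
  induction n with
  | zero =>
    intro _
    have h1 : BadK Φ E1 E D B 0 = ∅ := by
      rw [Set.eq_empty_iff_forall_notMem]
      rintro b ⟨_, h⟩
      exact h trivial
    rw [h1, Set.ncard_empty]
    simp
  | succ n ih =>
    intro hn
    have h1 := ih (by omega)
    have hB0 : (0 : ℝ) ≤ B := Nat.cast_nonneg _
    have hA0 : (0 : ℝ) ≤ Φ.A := Nat.cast_nonneg _
    have h2 := cardK_step Φ E1 E D B n hB (hcB * B) (by positivity) (hc n (by omega))
    have h3 : (Φ.A * B : ℝ) * (BadK Φ E1 E D B n).ncard ≤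
        ((Φ.A + 1) * B) * (n * hcB * (Φ.A + 1) ^ n * B ^ n) := by
      refine mul_le_mul ?_ h1 (Nat.cast_nonneg _) (by positivity)
      exact mul_le_mul_of_nonneg_right (by linarith) hB0
    have h4 : ((Φ.A : ℝ) * B) ^ n * (hcB * B) ≤ (Φ.A + 1) ^ (n + 1) * B ^ n * (hcB * B) := by
      refine mul_le_mul_of_nonneg_right ?_ (by positivity)
      rw [mul_pow]
      refine mul_le_mul_of_nonneg_right ?_ (by positivity)
      calc (Φ.A : ℝ) ^ n ≤ (Φ.A + 1) ^ n := pow_le_pow_left₀ hA0 (by linarith) n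
        _ ≤ (Φ.A + 1) ^ (n + 1) := pow_le_pow_right₀ (by linarith) (Nat.le_succ n)
    refine h2.trans ((add_le_add h3 h4).trans (le_of_eq ?_))
    push_cast
    ring

end

/-- Compare `ZL.main` (ZL/Many.lean): same proof, with `Φ.x (b i)` instead of `log (b i)`, `Φ.S B` instead
of `{1, …, B}` (at most `Φ.A * B` elements) and `count_fam` instead of `count_one`. -/
theorem count_many {ι : Type} (Φ : Fam ι) (n D κ : ℕ) : ∃ K : ℕ, ∀ E : Submodule Qa ℂ,
    FiniteDimensional Qa E → finrank Qa E ≤ κ → (1 : ℂ) ∈ E → ∀ B : ℕ, 16 ≤ B →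
      ({b : Fin n → ι | (∀ i, b i ∈ Φ.S B) ∧ ∃ y : Fin n → ℂ,
          (∀ i, ∃ q : Qa, q ≠ 0 ∧ y i - q * Φ.x (b i) ∈ E) ∧ ¬ GoodN E D y}.ncard : ℝ) ≤
        K * Real.log (Real.log B) ^ K / Real.log B * B ^ n := by
  obtain ⟨K, hK⟩ := count_fam Φ (κ * κ * (κ + n) ^ D) D
  refine ⟨n * (Φ.A + 1) ^ n * K + K, fun E hE hκ h1 B hB => ?_⟩
  have hL := MP60829e.Rate.log_ge B hB
  have hl := MP60829e.Rate.loglog_ge B hB
  have he := Real.exp_one_gt_d9
  have hL0 : 0 < Real.log B := by linarith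
  have hl0 : 0 ≤ Real.log (Real.log B) := by linarith
  have hE1 : FiniteDimensional Qa ↥(E * E) := Module.Finite.iff_fg.2
    ((Module.Finite.iff_fg.1 hE).mul (Module.Finite.iff_fg.1 hE))
  have h2 := cardK_all Φ (E * E) E D B (by omega)
    (K * Real.log (Real.log B) ^ K / Real.log B) (by positivity) n (fun m hm x => by
      obtain ⟨h3, h4⟩ := finrank_EbK (E * E) E D x
      refine hK (EbK (E * E) E D x) h3 (h4.trans ?_) ?_ B hB
      · refine Nat.mul_le_mul ((finrank_mul_le _ _).trans (Nat.mul_le_mul hκ hκ))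
          (Nat.pow_le_pow_left (by omega) D)
      · have h5 : (1 : Submodule Qa ℂ) ≤ EbK (E * E) E D x := by
          unfold EbK
          have h6 : (1 : Submodule Qa ℂ) ≤ E := Submodule.one_le.2 h1
          exact one_le_mul (one_le_mul h6 h6) (one_le_pow_of_one_le' (h6.trans le_sup_left) D)
        exact Submodule.one_le.1 h5) n le_rfl
  have h3 : {b : Fin n → ι | (∀ i, b i ∈ Φ.S B) ∧ ∃ y : Fin n → ℂ,
      (∀ i, ∃ q : Qa, q ≠ 0 ∧ y i - q * Φ.x (b i) ∈ E) ∧ ¬ GoodN E D y}.ncard ≤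
      (BadK Φ (E * E) E D B n).ncard := by
    refine Set.ncard_le_ncard ?_ (badK_finite Φ _ _ _ _ _)
    rintro b ⟨hb, y, hy, hN⟩
    exact ⟨hb, fun hg => hN (goodN_of_goodK h1 _ y (fun i => Φ.mem _) hg hy)⟩
  have h4 : ({b : Fin n → ι | (∀ i, b i ∈ Φ.S B) ∧ ∃ y : Fin n → ℂ,
      (∀ i, ∃ q : Qa, q ≠ 0 ∧ y i - q * Φ.x (b i) ∈ E) ∧ ¬ GoodN E D y}.ncard : ℝ) ≤
      (BadK Φ (E * E) E D B n).ncard := by exact_mod_cast h3
  refine (h4.trans h2).trans ?_
  refine mul_le_mul_of_nonneg_right ?_ (by positivity)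
  rw [mul_div_assoc', div_mul_eq_mul_div]
  refine div_le_div_of_nonneg_right ?_ hL0.le
  have h5 : (Real.log (Real.log B)) ^ K ≤
      (Real.log (Real.log B)) ^ (n * (Φ.A + 1) ^ n * K + K) :=
    pow_le_pow_right₀ hl (by omega)
  obtain ⟨c, hc⟩ : ∃ c : ℝ, c = n * (Φ.A + 1) ^ n * K := ⟨_, rfl⟩
  have hc0 : 0 ≤ c := by rw [hc]; positivity
  have h6 : c * Real.log (Real.log B) ^ K ≤
      c * Real.log (Real.log B) ^ (n * (Φ.A + 1) ^ n * K + K) := by gcongr
  have h7 : (0 : ℝ) ≤ K * Real.log (Real.log B) ^ (n * (Φ.A + 1) ^ n * K + K) := by positivity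
  have h8 : (((n * (Φ.A + 1) ^ n * K + K : ℕ)) : ℝ) = c + K := by rw [hc]; push_cast; ring
  rw [h8]
  have h9 : (n : ℝ) * (K * Real.log (Real.log B) ^ K) * (Φ.A + 1) ^ n =
      c * Real.log (Real.log B) ^ K := by rw [hc]; ring
  rw [h9, add_mul]
  linarith

end MP60829e.ZK
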