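import Mathlib
import Pool.Agent.Lib.MP_60829e_nt.ZK.FamK
import Pool.Agent.Lib.MP_60829e_nt.ZK.ManyF

/-! # Theorem ZK: almost all tuples of ideals of a number field -/

open Finset NumberField IsDedekindDomain Module MvPolynomial

namespace MP60829e.ZK

open MP60829e.ST (Qa Lt)

variable (K : Type) [Field K] [NumberField K] (σ : K →+* ℂ)

/-- `l` is a logarithm of a generator of a power of `I` -/
def IsLog (I : Ideal (𝓞 K)) (l : ℂ) : Prop :=
  ∃ (m : ℕ) (β : 𝓞 K), 1 ≤ m ∧ Ideal.span {β} = I ^ m ∧ Complex.exp l = σ (β : K)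

/-- The logarithms of generators of powers of `I` are in `Qa^* * lgK I + U`. -/
theorem exists_UK : ∃ U : Submodule Qa ℂ, FiniteDimensional Qa U ∧
    ∀ (a : Pr K →₀ ℕ) (l : ℂ), IsLog K σ (toI K a) l →
      ∃ q : Qa, q ≠ 0 ∧ l - q * lgK K σ a ∈ U := by
  obtain ⟨U, hU, h⟩ := exists_U K σ
  refine ⟨U, hU, ?_⟩
  rintro a l ⟨m, β, hm, hβ, hl⟩
  have hc : (classNumber K : Qa) ≠ 0 := by exact_mod_cast NumberField.classNumber_ne_zero K
  refine ⟨(m : Qa) / classNumber K, ?_, ?_⟩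
  · refine div_ne_zero ?_ hc
    exact_mod_cast (by omega : m ≠ 0)
  · have h8 : (((m : Qa) / classNumber K : Qa) : ℂ) = (m : ℂ) / classNumber K := by
      have h9 : algebraMap Qa ℂ ((m : Qa) / classNumber K) = (m : ℂ) / classNumber K := by
        rw [map_div₀, map_natCast, map_natCast]
      exact h9
    rw [h8]
    exact h a m β l hβ hl

/-- the space for the count -/
theorem finrank_EU {E U : Submodule Qa ℂ} [FiniteDimensional Qa E] [FiniteDimensional Qa U] {κ : ℕ}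
    (h : finrank Qa E ≤ κ) : FiniteDimensional Qa ↥(E ⊔ U ⊔ Submodule.span Qa {(1 : ℂ)}) ∧
      finrank Qa ↥(E ⊔ U ⊔ Submodule.span Qa {(1 : ℂ)}) ≤ κ + finrank Qa U + 1 := by
  refine ⟨inferInstance, ?_⟩
  have h1 := Submodule.finrank_add_le_finrank_add_finrank (E ⊔ U) (Submodule.span Qa {(1 : ℂ)})
  have h2 := Submodule.finrank_add_le_finrank_add_finrank E U
  have h3 := finrank_span_singleton (K := Qa) (one_ne_zero : (1 : ℂ) ≠ 0)
  omega

/-- PROOF: `exists_fam`, `count_many` for `E ⊔ U ⊔ Qa` (`exists_U`), `exists_toI`, `toI_injective`. -/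
theorem ideals_many (n D κ : ℕ) : ∃ C : ℕ, ∀ E : Submodule Qa ℂ, FiniteDimensional Qa E →
    finrank Qa E ≤ κ → ∀ B : ℕ, 16 ≤ B →
      ({I : Fin n → Ideal (𝓞 K) | (∀ i, I i ≠ ⊥ ∧ Ideal.absNorm (I i) ≤ B) ∧
        ∃ (l y : Fin n → ℂ), (∀ i, IsLog K σ (I i) (l i)) ∧
          (∀ i, ∃ q : Qa, q ≠ 0 ∧ y i - q * l i ∈ E) ∧ ¬ GoodN E D y}.ncard : ℝ) ≤
        C * Real.log (Real.log B) ^ C / Real.log B * B ^ n := by
  classical
  obtain ⟨Φ, hx, hS⟩ := exists_fam K σ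
  obtain ⟨U, hUf, hU⟩ := exists_UK K σ
  obtain ⟨C, hC⟩ := count_many Φ n D (κ + finrank Qa U + 1)
  refine ⟨C, fun E hE hκ B hB => ?_⟩
  obtain ⟨h1, h2⟩ := finrank_EU (U := U) hκ
  obtain ⟨E', hE'⟩ : ∃ E' : Submodule Qa ℂ, E' = E ⊔ U ⊔ Submodule.span Qa {(1 : ℂ)} := ⟨_, rfl⟩
  rw [← hE'] at h1 h2
  have hle : E ≤ E' := by
    rw [hE', sup_assoc]
    exact le_sup_left
  have hUle : U ≤ E' := by
    rw [hE']
    exact le_sup_right.trans le_sup_left
  have h1E : (1 : ℂ) ∈ E' := by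
    rw [hE']
    exact Submodule.mem_sup_right (Submodule.mem_span_singleton_self 1)
  refine le_trans ?_ (hC E' h1 h2 h1E B hB)
  obtain ⟨X, hX⟩ : ∃ X : Set (Fin n → (Pr K →₀ ℕ)), X = {b | (∀ i, b i ∈ Φ.S B) ∧
    ∃ y : Fin n → ℂ, (∀ i, ∃ q : Qa, q ≠ 0 ∧ y i - q * Φ.x (b i) ∈ E') ∧ ¬ GoodN E' D y} :=
    ⟨_, rfl⟩
  rw [← hX]
  have hfin : X.Finite := by
    refine (Finset.finite_toSet (Fintype.piFinset (fun _ : Fin n => Φ.S B))).subset ?_
    intro b hb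
    rw [hX] at hb
    rw [mem_coe, Fintype.mem_piFinset]
    exact hb.1
  have hsub : {I : Fin n → Ideal (𝓞 K) | (∀ i, I i ≠ ⊥ ∧ Ideal.absNorm (I i) ≤ B) ∧
        ∃ (l y : Fin n → ℂ), (∀ i, IsLog K σ (I i) (l i)) ∧
          (∀ i, ∃ q : Qa, q ≠ 0 ∧ y i - q * l i ∈ E) ∧ ¬ GoodN E D y} ⊆
      (fun b i => toI K (b i)) '' X := by
    rintro I ⟨hI, l, y, hl, hy, hbad⟩
    choose b hb using fun i => exists_toI K (I i) (hI i).1
    refine ⟨b, ?_, funext hb⟩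
    rw [hX]
    refine ⟨fun i => (hS B (b i)).2 (by rw [hb]; exact (hI i).2), y, fun i => ?_, fun hg => hbad ?_⟩
    · obtain ⟨q, hq, hqE⟩ := hy i
      obtain ⟨q', hq', hqU⟩ := hU (b i) (l i) (by rw [hb]; exact hl i)
      refine ⟨q * q', mul_ne_zero hq hq', ?_⟩
      have h3 : y i - ((q * q' : Qa) : ℂ) * Φ.x (b i) =
          (y i - q * l i) + q * (l i - q' * lgK K σ (b i)) := by
        have h4 : ((q * q' : Qa) : ℂ) = (q : ℂ) * (q' : ℂ) := rfl
        rw [h4, hx]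
        ring
      rw [h3]
      exact E'.add_mem (hle hqE) (E'.smul_mem q (hUle hqU))
    · intro A hA F hF hc h0
      exact hg A (hA.trans hle) F hF (fun m => (sup_le_sup hle le_rfl : E ⊔ A * Lt ≤ E' ⊔ A * Lt)
        (hc m)) h0
  have h3 := (Set.ncard_le_ncard hsub (hfin.image _)).trans (Set.ncard_image_le hfin)
  exact_mod_cast h3

end MP60829e.ZK
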