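import Mathlib
import Pool.Agent.Lib.MP_60829e_nt.ZK.OutK
import Pool.Agent.Lib.MP_60829e_nt.ZL.Det

/-! # Theorem ZK: matrices of logarithms with one arbitrary row, for almost all ideals -/

open Finset NumberField IsDedekindDomain Module MvPolynomial

namespace MP60829e.ZK

open MP60829e.ST (Qa Lt)
open MP60829e.ZL (Comb cof det_cons map_cof tdm Xm totalDegree_cof FJ eval_FJ mem_one_iff la exists_cols)

variable {r n : ℕ}

/-- **One arbitrary row.** -/
theorem rows_of_goodN (hrn : r < n) (y : Fin (r * n) → ℂ)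
    (hcomb : GoodN (1 : Submodule Qa ℂ) (r + 1) y)
    (l : Fin n → ℂ) (hl : ∀ j, l j ∈ Lt)
    (hdep : ¬ LinearIndependent ℂ (Fin.cons l (fun i j => y (finProdFinEquiv (i, j))) :
      Fin (r + 1) → Fin n → ℂ)) :
    ∃ α : Fin r → Qa, ∀ j, l j = ∑ i, (α i : ℂ) * y (finProdFinEquiv (i, j)) := by
  classical
  -- independence
  have hind : ∀ (c0 : Qa) (c : Fin (r * n) → Qa), (c0 : ℂ) + ∑ p, (c p : ℂ) * y p = 0 →
      c0 = 0 ∧ ∀ p, c p = 0 := by
    intro c0 c h0
    obtain ⟨P, hP⟩ : ∃ P : MvPolynomial (Fin (r * n)) Qa, P = C c0 + ∑ p, C (c p) * X p :=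
      ⟨_, rfl⟩
    have h1 : Comb ⊥ (r + 1) y (map (algebraMap Qa ℂ) P) := by
      refine hcomb ⊥ bot_le _ ?_ ?_ ?_
      · refine (tdm _).trans ?_
        rw [hP]
        refine (totalDegree_add _ _).trans (max_le ?_ ?_)
        · rw [totalDegree_C]
          exact Nat.zero_le _
        · refine totalDegree_finsetSum_le fun p _ => ?_
          refine (totalDegree_mul _ _).trans ?_
          rw [totalDegree_C, totalDegree_X]
          exact Nat.succ_le_succ (Nat.zero_le r)
      · intro m
        rw [coeff_map]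
        exact Submodule.mem_sup_left (mem_one_iff.2 ⟨_, rfl⟩)
      · rw [eval_map, hP, eval₂_add, eval₂_C, eval₂_sum]
        rw [← h0]
        congr 1
        refine Finset.sum_congr rfl fun p _ => ?_
        rw [eval₂_mul, eval₂_C, eval₂_X]
        rfl
    obtain ⟨G, hG, -, hG2⟩ := h1
    have h2 : ∀ i, G i = 0 := by
      intro i
      ext m
      rw [coeff_zero]
      exact (Submodule.mem_bot Qa).1 (hG i m)
    have h3 : P = 0 := by
      apply map_injective (algebraMap Qa ℂ) (algebraMap Qa ℂ).injective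
      rw [hG2, map_zero]
      exact Finset.sum_eq_zero fun i _ => by rw [h2 i, mul_zero]
    constructor
    · have h4 : coeff 0 P = c0 := by
        rw [hP, coeff_add, coeff_C, if_pos rfl, coeff_sum, Finset.sum_eq_zero, add_zero]
        intro p _
        rw [coeff_C_mul, coeff_X, if_neg, mul_zero]
        intro h5
        have h6 := DFunLike.congr_fun h5 p
        rw [Finsupp.single_eq_same] at h6
        exact one_ne_zero h6
      rw [← h4, h3, coeff_zero]
    · intro p
      have h4 : coeff (Finsupp.single p 1) P = c p := by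
        rw [hP, coeff_add, coeff_C, if_neg, coeff_sum, Finset.sum_eq_single p, zero_add]
        · rw [coeff_C_mul, coeff_X, if_pos rfl, mul_one]
        · intro q _ hq
          rw [coeff_C_mul, coeff_X, if_neg, mul_zero]
          intro h5
          exact hq (Finsupp.single_left_injective one_ne_zero h5)
        · intro h5
          exact absurd (Finset.mem_univ p) h5
        · intro h5
          have h6 := DFunLike.congr_fun h5 p
          rw [Finsupp.single_eq_same] at h6
          exact one_ne_zero h6.symm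
      rw [← h4, h3, coeff_zero]
  -- the determinants vanish
  have hdet : ∀ J : Fin (r + 1) → Fin n,
      ∑ b, l (J b) * cof (fun i j => y (finProdFinEquiv (i, j))) J b = 0 := by
    intro J
    rw [← det_cons]
    rw [Fintype.not_linearIndependent_iff] at hdep
    obtain ⟨g, hg, i0, hi0⟩ := hdep
    refine Matrix.exists_vecMul_eq_zero_iff.1 ⟨g, fun h1 => hi0 (congrFun h1 i0), ?_⟩
    funext b'
    have h2 := congrFun hg (J b')
    rw [Finset.sum_apply] at h2
    exact h2
  have hid : ∀ (J : Fin (r + 1) → Fin n) (z : Fin (r * n) → Qa), ∃ g : Fin (r * n) → Qa,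
      ∑ b, l (J b) * ((cof (fun i j => z (finProdFinEquiv (i, j))) J b : Qa) : ℂ) =
        ∑ p, ((z p : ℂ) - y p) * (g p : ℂ) := by
    intro J z
    obtain ⟨G, hG, -, hG2⟩ := hcomb 1 le_rfl (FJ l J) (by
      unfold FJ
      refine totalDegree_finsetSum_le fun b _ => ?_
      refine (totalDegree_mul _ _).trans ?_
      rw [totalDegree_C, zero_add]
      exact ((tdm _).trans (totalDegree_cof J b)).trans (Nat.le_succ r)) (by
      intro m
      refine Submodule.mem_sup_right ?_
      rw [one_mul]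
      unfold FJ
      rw [coeff_sum]
      refine Submodule.sum_mem _ fun b _ => ?_
      rw [coeff_C_mul, coeff_map, mul_comm]
      exact Lt.smul_mem _ (hl (J b))) (by
      rw [eval_FJ]
      exact hdet J)
    have h1 : ∀ p, ∃ g : Qa, (g : ℂ) = eval (fun q => (z q : ℂ)) (G p) := by
      intro p
      refine mem_one_iff.1 ?_
      rw [eval_eq']
      refine Submodule.sum_mem _ fun m _ => ?_
      obtain ⟨c, hc⟩ := mem_one_iff.1 (hG p m)
      refine mem_one_iff.2 ⟨c * ∏ q, z q ^ m q, ?_⟩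
      rw [← hc]
      change algebraMap Qa ℂ (c * ∏ q, z q ^ m q) = _
      rw [map_mul, map_prod]
      congr 1
    choose g hg using h1
    refine ⟨g, ?_⟩
    have h2 := congrArg (eval fun q => (z q : ℂ)) hG2
    rw [eval_FJ, map_sum] at h2
    have h3 : ∀ b', (cof (fun i j => (z (finProdFinEquiv (i, j)) : ℂ)) J b') =
        ((cof (fun i j => z (finProdFinEquiv (i, j))) J b' : Qa) : ℂ) := by
      intro b'
      exact (map_cof (algebraMap Qa ℂ) (fun i j => z (finProdFinEquiv (i, j))) J b').symm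
    simp only [h3] at h2
    rw [h2]
    refine Finset.sum_congr rfl fun p _ => ?_
    rw [map_mul, map_sub, eval_X, eval_C, ← hg p]
  -- the entries of the row
  have hent : ∀ j, ∃ (c : Qa) (d : Fin (r * n) → Qa), l j = (c : ℂ) + ∑ p, (d p : ℂ) * y p := by
    intro j
    obtain ⟨n', rfl⟩ : ∃ n', n = n' + 1 := ⟨n - 1, by omega⟩
    obtain ⟨ι, hι⟩ : ∃ ι : Fin r → Fin (n' + 1), ι = fun i =>
        j.succAbove (Fin.castLE (by omega) i) := ⟨_, rfl⟩
    have hιj : ∀ i, ι i ≠ j := fun i => by
      rw [hι]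
      exact Fin.succAbove_ne j _
    have hιi : Function.Injective ι := by
      rw [hι]
      exact Fin.succAbove_right_injective.comp (Fin.castLE_injective _)
    obtain ⟨z, hz⟩ : ∃ z : Fin (r * (n' + 1)) → Qa, z = fun p =>
        if (finProdFinEquiv.symm p).2 = ι (finProdFinEquiv.symm p).1 then 1 else 0 := ⟨_, rfl⟩
    have hz' : ∀ i j', z (finProdFinEquiv (i, j')) = if j' = ι i then 1 else 0 := by
      intro i j'
      rw [hz]
      simp only [Equiv.symm_apply_apply]
    obtain ⟨g, hg⟩ := hid (Fin.cons j ι) z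
    rw [Fin.sum_univ_succ] at hg
    have h1 : cof (fun i j' => z (finProdFinEquiv (i, j'))) (Fin.cons j ι) 0 = 1 := by
      unfold cof
      rw [Fin.val_zero, pow_zero, one_mul]
      have h2 : (Matrix.of fun a b' : Fin r => z (finProdFinEquiv
          (a, (Fin.cons j ι : Fin (r + 1) → Fin (n' + 1)) ((0 : Fin (r + 1)).succAbove b')))) =
          (1 : Matrix (Fin r) (Fin r) Qa) := by
        funext a b'
        rw [Matrix.of_apply, Fin.zero_succAbove, Fin.cons_succ, hz', Matrix.one_apply]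
        by_cases h3 : a = b'
        · rw [h3, if_pos rfl, if_pos rfl]
        · rw [if_neg fun h4 => h3 (hιi h4).symm, if_neg h3]
      rw [h2, Matrix.det_one]
    have h2 : ∀ b' : Fin r, cof (fun i j' => z (finProdFinEquiv (i, j'))) (Fin.cons j ι)
        b'.succ = 0 := by
      intro b'
      unfold cof
      obtain ⟨s, rfl⟩ : ∃ s, r = s + 1 := ⟨r - 1, by have := b'.isLt; omega⟩
      rw [Matrix.det_eq_zero_of_column_eq_zero (0 : Fin (s + 1)), mul_zero]
      intro a
      rw [Matrix.of_apply, Fin.succ_succAbove_zero, Fin.cons_zero]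
      exact (hz' a j).trans (if_neg (hιj a).symm)
    rw [h1] at hg
    simp only [h2] at hg
    have h3 : ((0 : Qa) : ℂ) = 0 := rfl
    have h4 : ((1 : Qa) : ℂ) = 1 := rfl
    rw [h4, mul_one, Fin.cons_zero] at hg
    simp only [h3, mul_zero, Finset.sum_const_zero, add_zero] at hg
    refine ⟨∑ p, z p * g p, fun p => -g p, ?_⟩
    rw [hg]
    have h5 : ((∑ p, z p * g p : Qa) : ℂ) = ∑ p, (z p : ℂ) * (g p : ℂ) := by
      change algebraMap Qa ℂ (∑ p, z p * g p) = _
      rw [map_sum]
      refine Finset.sum_congr rfl fun p _ => ?_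
      rw [map_mul]
      rfl
    rw [h5, ← Finset.sum_add_distrib]
    refine Finset.sum_congr rfl fun p _ => ?_
    have h6 : ((-g p : Qa) : ℂ) = -(g p : ℂ) := rfl
    rw [h6]
    ring
  choose c d hcd using hent
  -- the identity
  have hzero : ∀ (J : Fin (r + 1) → Fin n) (z : Fin (r * n) → Qa),
      ∑ b, (c (J b) + ∑ p, d (J b) p * z p) *
        cof (fun i j => z (finProdFinEquiv (i, j))) J b = 0 := by
    intro J z
    obtain ⟨g, hg⟩ := hid J z
    obtain ⟨κ, hκ⟩ : ∃ κ : Fin (r + 1) → Qa,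
        κ = fun b => cof (fun i j => z (finProdFinEquiv (i, j))) J b := ⟨_, rfl⟩
    have hκ' : ∀ b, cof (fun i j => z (finProdFinEquiv (i, j))) J b = κ b := fun b => by rw [hκ]
    simp only [hκ'] at hg ⊢
    have h1 := hind (∑ b, c (J b) * κ b - ∑ p, z p * g p)
      (fun p => ∑ b, d (J b) p * κ b + g p) (by
        have e1 : ((∑ b, c (J b) * κ b - ∑ p, z p * g p : Qa) : ℂ) =
            ∑ b, (c (J b) : ℂ) * (κ b : ℂ) - ∑ p, (z p : ℂ) * (g p : ℂ) := by
          change algebraMap Qa ℂ (∑ b, c (J b) * κ b - ∑ p, z p * g p) = _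
          rw [map_sub, map_sum, map_sum]
          congr 1
        have e2 : ∀ p, ((∑ b, d (J b) p * κ b + g p : Qa) : ℂ) =
            ∑ b, (d (J b) p : ℂ) * (κ b : ℂ) + (g p : ℂ) := by
          intro p
          change algebraMap Qa ℂ (∑ b, d (J b) p * κ b + g p) = _
          rw [map_add, map_sum]
          congr 1
        have e3 : ∑ b, l (J b) * (κ b : ℂ) = ∑ b, (c (J b) : ℂ) * (κ b : ℂ) +
            ∑ p, (∑ b, (d (J b) p : ℂ) * (κ b : ℂ)) * y p := by
          have h2 : ∀ b', l (J b') * (κ b' : ℂ) = (c (J b') : ℂ) * (κ b' : ℂ) +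
              ∑ p, (d (J b') p : ℂ) * (κ b' : ℂ) * y p := by
            intro b'
            rw [hcd (J b'), add_mul, Finset.sum_mul]
            congr 1
            refine Finset.sum_congr rfl fun p _ => ?_
            ring
          simp only [h2]
          rw [Finset.sum_add_distrib]
          congr 1
          rw [Finset.sum_comm]
          refine Finset.sum_congr rfl fun p _ => ?_
          rw [Finset.sum_mul]
        rw [e3] at hg
        rw [e1]
        simp only [e2, add_mul]
        rw [Finset.sum_add_distrib]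
        have h3 : ∑ p, ((z p : ℂ) - y p) * (g p : ℂ) =
            ∑ p, (z p : ℂ) * (g p : ℂ) - ∑ p, (g p : ℂ) * y p := by
          rw [← Finset.sum_sub_distrib]
          refine Finset.sum_congr rfl fun p _ => ?_
          ring
        rw [h3] at hg
        linear_combination hg)
    obtain ⟨h2, h3⟩ := h1
    have h4 : ∑ b, (c (J b) + ∑ p, d (J b) p * z p) * κ b =
        ∑ b, c (J b) * κ b + ∑ p, z p * ∑ b, d (J b) p * κ b := by
      have h5 : ∀ b', (c (J b') + ∑ p, d (J b') p * z p) * κ b' =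
          c (J b') * κ b' + ∑ p, z p * (d (J b') p * κ b') := by
        intro b'
        rw [add_mul, Finset.sum_mul]
        congr 1
        refine Finset.sum_congr rfl fun p _ => ?_
        ring
      simp only [h5]
      rw [Finset.sum_add_distrib]
      congr 1
      rw [Finset.sum_comm]
      refine Finset.sum_congr rfl fun p _ => ?_
      rw [Finset.mul_sum]
    rw [h4]
    have h5 : ∀ p, ∑ b, d (J b) p * κ b = -g p := fun p => eq_neg_of_add_eq_zero_left (h3 p)
    simp only [h5]
    rw [sub_eq_zero.1 h2, ← Finset.sum_add_distrib]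
    refine Finset.sum_eq_zero fun p _ => ?_
    ring
  -- the linear algebra
  obtain ⟨L, hL⟩ : ∃ L : Fin r → (Fin n → Qa) →ₗ[Qa] (Fin n → Qa), ∀ i v j,
      L i v j = ∑ j', d j (finProdFinEquiv (i, j')) * v j' := by
    refine ⟨fun i => Matrix.toLin' (Matrix.of fun j j' => d j (finProdFinEquiv (i, j'))),
      fun i v j => ?_⟩
    rw [Matrix.toLin'_apply]
    rfl
  have hsum : ∀ (j : Fin n) (z : Fin (r * n) → Qa), ∑ p, d j p * z p =
      ∑ i, ∑ j', d j (finProdFinEquiv (i, j')) * z (finProdFinEquiv (i, j')) := by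
    intro j z
    rw [← Fintype.sum_prod_type', ← finProdFinEquiv.sum_comp fun p => d j p * z p]
  have hfr : finrank Qa (Fin n → Qa) = n := by
    rw [finrank_fintype_fun_eq_card, Fintype.card_fin]
  obtain ⟨hc0, hα⟩ := la (k := Qa) (V := Fin n → Qa) (by rw [hfr]; exact hrn) c L (by
    intro z hz
    by_contra hcon
    obtain ⟨J, hJ⟩ := exists_cols _ (linearIndependent_finCons.2 ⟨hz, hcon⟩)
    apply hJ
    rw [det_cons]
    have h1 := hzero J (fun p => z (finProdFinEquiv.symm p).1 (finProdFinEquiv.symm p).2)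
    simp only [Equiv.symm_apply_apply] at h1
    rw [← h1]
    refine Finset.sum_congr rfl fun b' _ => ?_
    congr 1
    rw [Pi.add_apply, Finset.sum_apply, hsum]
    simp only [Equiv.symm_apply_apply, hL])
  choose α hα using hα
  refine ⟨α, fun j => ?_⟩
  have hd : ∀ i j', d j (finProdFinEquiv (i, j')) = if j = j' then α i else 0 := by
    intro i j'
    have h1 := congrFun (hα i (Pi.single j' 1)) j
    rw [hL, Finset.sum_eq_single j'] at h1
    · rw [Pi.single_eq_same, mul_one, Pi.smul_apply, smul_eq_mul, Pi.single_apply] at h1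
      rw [h1]
      split_ifs
      · rw [mul_one]
      · rw [mul_zero]
    · intro j'' _ hj''
      rw [Pi.single_eq_of_ne hj'', mul_zero]
    · intro h2
      exact absurd (Finset.mem_univ j') h2
  rw [hcd j, hc0]
  have h0 : (((0 : Fin n → Qa) j : Qa) : ℂ) = 0 := rfl
  rw [h0, zero_add, ← finProdFinEquiv.sum_comp fun p => (d j p : ℂ) * y p,
    Fintype.sum_prod_type]
  refine Finset.sum_congr rfl fun i _ => ?_
  rw [Finset.sum_eq_single j]
  · rw [hd, if_pos rfl]
  · intro j' _ hj'
    rw [hd, if_neg (Ne.symm hj')]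
    have h3 : ((0 : Qa) : ℂ) = 0 := rfl
    rw [h3, zero_mul]
  · intro h2
    exact absurd (Finset.mem_univ j) h2

variable (K : Type) [Field K] [NumberField K] (σ : K →+* ℂ)

/-- Compare `ZL.rows` (ZL/Det.lean). -/
theorem ideals_rows {r n : ℕ} (hrn : r < n) : ∃ C : ℕ, ∀ B : ℕ, 16 ≤ B →
    ({I : Fin r → Fin n → Ideal (𝓞 K) | (∀ i j, I i j ≠ ⊥ ∧ Ideal.absNorm (I i j) ≤ B) ∧
      ∃ l : Fin r → Fin n → ℂ, (∀ i j, IsLog K σ (I i j) (l i j)) ∧
        ∃ z : Fin n → ℂ, (∀ j, z j ∈ Lt) ∧ ¬ LinearIndependent ℂ (Matrix.vecCons z l) ∧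
          ¬ ∃ a : Fin r → Qa, ∀ j, z j = ∑ i, (a i : ℂ) * l i j}.ncard : ℝ) ≤
      C * Real.log (Real.log B) ^ C / Real.log B * B ^ (r * n) := by
  obtain ⟨C, hC⟩ := ideals_many K σ (r * n) (r + 1) 1
  refine ⟨C, fun B hB => ?_⟩
  have h1 : FiniteDimensional Qa ((1 : Submodule Qa ℂ) : Type) := by
    rw [Submodule.one_eq_span]
    infer_instance
  have h2 : finrank Qa ((1 : Submodule Qa ℂ) : Type) ≤ 1 := by
    rw [Submodule.one_eq_span]
    exact (finrank_span_singleton (K := Qa) (one_ne_zero : (1 : ℂ) ≠ 0)).le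
  refine le_trans ?_ (hC 1 h1 h2 B hB)
  obtain ⟨f, hf⟩ : ∃ f : (Fin r → Fin n → Ideal (𝓞 K)) → Fin (r * n) → Ideal (𝓞 K), ∀ b p,
      f b p = b (finProdFinEquiv.symm p).1 (finProdFinEquiv.symm p).2 :=
    ⟨fun b p => b (finProdFinEquiv.symm p).1 (finProdFinEquiv.symm p).2, fun _ _ => rfl⟩
  have hf' : ∀ b i j, f b (finProdFinEquiv (i, j)) = b i j := by
    intro b i j
    rw [hf, Equiv.symm_apply_apply]
  have hfi : Function.Injective f := by
    intro b b' h
    funext i j
    rw [← hf' b, ← hf' b', h]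
  have h3 := Set.ncard_le_ncard_of_injOn (s := {I : Fin r → Fin n → Ideal (𝓞 K) |
      (∀ i j, I i j ≠ ⊥ ∧ Ideal.absNorm (I i j) ≤ B) ∧
      ∃ l : Fin r → Fin n → ℂ, (∀ i j, IsLog K σ (I i j) (l i j)) ∧
        ∃ z : Fin n → ℂ, (∀ j, z j ∈ Lt) ∧ ¬ LinearIndependent ℂ (Matrix.vecCons z l) ∧
          ¬ ∃ a : Fin r → Qa, ∀ j, z j = ∑ i, (a i : ℂ) * l i j})
    (t := {I : Fin (r * n) → Ideal (𝓞 K) | (∀ i, I i ≠ ⊥ ∧ Ideal.absNorm (I i) ≤ B) ∧
        ∃ (l y : Fin (r * n) → ℂ), (∀ i, IsLog K σ (I i) (l i)) ∧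
          (∀ i, ∃ q : Qa, q ≠ 0 ∧ y i - q * l i ∈ (1 : Submodule Qa ℂ)) ∧
            ¬ GoodN (1 : Submodule Qa ℂ) (r + 1) y}) f ?_ hfi.injOn ?_
  · exact_mod_cast h3
  · rintro I ⟨hI, l, hl, z, hz, hdep, hno⟩
    refine ⟨fun p => by rw [hf]; exact hI _ _, fun p => l (finProdFinEquiv.symm p).1
      (finProdFinEquiv.symm p).2, fun p => l (finProdFinEquiv.symm p).1
      (finProdFinEquiv.symm p).2, fun p => by rw [hf]; exact hl _ _, fun p => ⟨1, one_ne_zero, ?_⟩,
      fun hgood => ?_⟩
    · rw [show ((1 : Qa) : ℂ) = 1 from rfl, one_mul, sub_self]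
      exact Submodule.zero_mem _
    · apply hno
      obtain ⟨α, hα⟩ := rows_of_goodN hrn _ hgood z hz (by
        simp only [Equiv.symm_apply_apply]
        exact hdep)
      refine ⟨α, fun j => ?_⟩
      rw [hα j]
      simp only [Equiv.symm_apply_apply]
  · refine (Set.Finite.pi' fun _ : Fin (r * n) =>
      Ideal.finite_setOfPred_absNorm_le (S := 𝓞 K) B).subset fun b hb => ?_
    exact fun i => (hb.1 i).2

end MP60829e.ZK
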