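import Mathlib
import Pool.Agent.Lib.MP_60829e_nt.ZK.OutK
import Pool.Agent.Lib.MP_60829e_nt.ZL.Four

/-! # Theorem ZK: four exponentials for almost all ideals -/

open Finset NumberField IsDedekindDomain Module

namespace MP60829e.ZK

open MP60829e.ST (Qa Lt)

variable (K : Type) [Field K] [NumberField K] (σ : K →+* ℂ)

/-- `Th ≤ E`, `1 ∈ E`: `l * (q x + h) ∈ Th * Lt` with `l` in `Lt`, not in `Th`, contradicts the two-space
property of `q x + h` for `E` in degree one (compare `ZL.badZ_le`). -/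
theorem badP_of {Th E : Submodule Qa ℂ} (h1E : (1 : ℂ) ∈ E) (hThE : Th ≤ E) {x h l : ℂ} {q : Qa}
    (hq : q ≠ 0) (hh : h ∈ E) (hl : l ∈ Lt) (hlT : l ∉ Th) (hlx : l * (q * x + h) ∈ Th * Lt) :
    BadP E 1 x := by
  by_contra hcon
  obtain ⟨y, hy⟩ : ∃ y, y = (q : ℂ) * x + h := ⟨_, rfl⟩
  rw [← hy] at hlx
  have hgood : ∀ A ≤ E, ∀ a b : ℂ, a ∈ E ⊔ A * Lt → b ∈ E ⊔ A * Lt → a * y = b → a ∈ A := by
    intro A hA a b ha hb hab
    obtain ⟨F, hF⟩ : ∃ F : Polynomial ℂ, F = Polynomial.C a * Polynomial.X - Polynomial.C b :=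
      ⟨_, rfl⟩
    have hF1 : F = (Polynomial.X - Polynomial.C y) * Polynomial.C a := by
      rw [hF, ← hab, Polynomial.C_mul]
      ring
    have hex : ∃ G : Polynomial ℂ, (∀ j, G.coeff j ∈ A) ∧
        F = (Polynomial.X - Polynomial.C y) * G := by
      by_contra hno
      refine hcon ⟨q, hq, h, hh, A, hA, F, fun j => ?_, ?_, ?_, ?_⟩
      · rw [hF, Polynomial.coeff_sub, Polynomial.coeff_C_mul, Polynomial.coeff_X,
          Polynomial.coeff_C]
        refine Submodule.sub_mem _ ?_ ?_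
        · split_ifs
          · rw [mul_one]; exact ha
          · rw [mul_zero]; exact Submodule.zero_mem _
        · split_ifs
          · exact hb
          · exact Submodule.zero_mem _
      · rw [hF]
        refine (Polynomial.natDegree_sub_C).le.trans ?_
        exact (Polynomial.natDegree_C_mul_le a _).trans Polynomial.natDegree_X_le
      · rw [← hy, hF1, Polynomial.eval_mul, Polynomial.eval_sub, Polynomial.eval_X,
            Polynomial.eval_C, sub_self, zero_mul]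
      · rw [← hy]
        exact hno
    obtain ⟨G, hG, hFG⟩ := hex
    have h3 : G = Polynomial.C a := by
      have h4 : (Polynomial.X - Polynomial.C y) * G = (Polynomial.X - Polynomial.C y) *
          Polynomial.C a := by rw [← hFG, ← hF1]
      exact mul_left_cancel₀ (Polynomial.X_sub_C_ne_zero y) h4
    have h4 := hG 0
    rw [h3, Polynomial.coeff_C_zero] at h4
    exact h4
  have hlE : l ∈ E := by
    refine hgood E le_rfl l (l * y) (Submodule.mem_sup_right ?_) (Submodule.mem_sup_right ?_) rfl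
    · rw [← one_mul l]
      exact Submodule.mul_mem_mul h1E hl
    · exact (mul_le_mul' hThE le_rfl : Th * Lt ≤ E * Lt) hlx
  exact hlT (hgood Th hThE l (l * y) (Submodule.mem_sup_left hlE) (Submodule.mem_sup_right hlx) rfl)

/-- for every `θ ≠ 0` there is a transcendental `t` with `t * θ` in `Lt` -/
theorem exists_trans {θ : ℂ} (hθ : θ ≠ 0) : ∃ t : ℂ, t * θ ∈ Lt ∧ ¬ IsAlgebraic ℚ t := by
  have h1 : (1 : ℂ) ∈ Lt := Submodule.subset_span (Or.inl rfl)
  have he2 : Complex.exp (Real.log 2 : ℝ) = 2 := by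
    rw [← Complex.ofReal_exp, Real.exp_log (by norm_num)]
    norm_num
  have hal2 : IsAlgebraic ℚ (Complex.exp (Real.log 2 : ℝ)) := by
    rw [he2]
    exact_mod_cast isAlgebraic_natCast (R := ℚ) (A := ℂ) 2
  have h2 : ((Real.log 2 : ℝ) : ℂ) ∈ Lt := Submodule.subset_span (Or.inr hal2)
  have h3 : ((Real.log 2 : ℝ) : ℂ) ≠ 0 := by
    have := Real.log_pos (by norm_num : (1 : ℝ) < 2)
    exact_mod_cast this.ne'
  by_cases hal : IsAlgebraic ℚ θ
  · refine ⟨(Real.log 2 : ℝ) / θ, ?_, ?_⟩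
    · rw [div_mul_cancel₀ _ hθ]
      exact h2
    · intro h4
      have h5 : IsAlgebraic ℚ (((Real.log 2 : ℝ) : ℂ) / θ * θ) := h4.mul hal
      rw [div_mul_cancel₀ _ hθ] at h5
      exact MP60829e.hermite_lindemann h3 h5 hal2
  · refine ⟨1 / θ, ?_, ?_⟩
    · rw [div_mul_cancel₀ _ hθ]
      exact h1
    · intro h4
      apply hal
      have h5 := h4.inv
      rwa [one_div, inv_inv] at h5

/-- Compare `ZL.exponentials` (ZL/Out.lean), `ZL.fourE`, `ZL.badZ_le`. PROOF: `count_fam` for the degree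
one, `exists_U`. The unit ideal is exceptional. -/
theorem ideals_four (κ : ℕ) : ∃ C : ℕ, ∀ E : Submodule Qa ℂ, FiniteDimensional Qa E →
    finrank Qa E ≤ κ → ∀ B : ℕ, 16 ≤ B →
      ({I : Ideal (𝓞 K) | (I ≠ ⊥ ∧ Ideal.absNorm I ≤ B) ∧ ∃ l : ℂ, IsLog K σ I l ∧
        ∃ θ ∈ E, θ ≠ 0 ∧ ∃ t : ℂ,
          (IsAlgebraic ℚ (Complex.exp (t * θ)) ∧ IsAlgebraic ℚ (Complex.exp (t * l)) ∧
              ¬ ∃ q : ℚ, (q : ℂ) = t) ∨
            (t * θ ∈ Lt ∧ t * l ∈ Lt ∧ ¬ IsAlgebraic ℚ t)}.ncard : ℝ) ≤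
        C * Real.log (Real.log B) ^ C / Real.log B * B := by
  classical
  obtain ⟨Φ, hx, hS⟩ := exists_fam K σ
  obtain ⟨U, hUf, hU⟩ := exists_UK K σ
  obtain ⟨C, hC⟩ := count_fam Φ (κ + finrank Qa U + 1) 1
  refine ⟨C, fun E hE hκ B hB => ?_⟩
  obtain ⟨h1, h2⟩ := finrank_EU (U := U) hκ
  obtain ⟨E', hE'⟩ : ∃ E' : Submodule Qa ℂ, E' = E ⊔ U ⊔ Submodule.span Qa {(1 : ℂ)} := ⟨_, rfl⟩
  rw [← hE'] at h1 h2
  have hle : E ≤ E' := by
    rw [hE', sup_assoc]
    exact le_sup_left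
  have hUle : U ≤ E' := by
    rw [hE']
    exact le_sup_right.trans le_sup_left
  have h1E : (1 : ℂ) ∈ E' := by
    rw [hE']
    exact Submodule.mem_sup_right (Submodule.mem_span_singleton_self 1)
  refine le_trans ?_ (hC E' h1 h2 h1E B hB)
  obtain ⟨X, hX⟩ : ∃ X : Set (Pr K →₀ ℕ), X = {b | b ∈ Φ.S B ∧ BadP E' 1 (Φ.x b)} := ⟨_, rfl⟩
  rw [← hX]
  have hfin : X.Finite := (Φ.S B).finite_toSet.subset fun b hb => by
    rw [hX] at hb
    exact hb.1
  have key : ∀ (b : Pr K →₀ ℕ) (l θ t : ℂ), IsLog K σ (toI K b) l → θ ∈ E → θ ≠ 0 →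
      t * θ ∈ Lt → t * l ∈ Lt → ¬ IsAlgebraic ℚ t → BadP E' 1 (Φ.x b) := by
    intro b l θ t hl hθ hθ0 ht1 ht2 ht3
    obtain ⟨q, hq, hqU⟩ := hU b l hl
    refine badP_of (Th := Submodule.span Qa {θ}) (h := l - q * lgK K σ b) (l := t * θ) (q := q) h1E
      ((Submodule.span_singleton_le_iff_mem _ _).2 (hle hθ)) hq (hUle hqU) ht1 ?_ ?_
    · intro hmem
      obtain ⟨c, hc⟩ := Submodule.mem_span_singleton.1 hmem
      have hc' : (c : ℂ) * θ = t * θ := hc
      have hct : (c : ℂ) = t := mul_right_cancel₀ hθ0 hc'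
      apply ht3
      rw [← hct]
      exact mem_algebraicClosure_iff.mp c.2
    · have h3 : t * θ * ((q : ℂ) * Φ.x b + (l - q * lgK K σ b)) = θ * (t * l) := by
        rw [hx]
        ring
      rw [h3]
      exact Submodule.mul_mem_mul (Submodule.mem_span_singleton_self θ) ht2
  have hsub : {I : Ideal (𝓞 K) | (I ≠ ⊥ ∧ Ideal.absNorm I ≤ B) ∧ ∃ l : ℂ, IsLog K σ I l ∧
        ∃ θ ∈ E, θ ≠ 0 ∧ ∃ t : ℂ,
          (IsAlgebraic ℚ (Complex.exp (t * θ)) ∧ IsAlgebraic ℚ (Complex.exp (t * l)) ∧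
              ¬ ∃ q : ℚ, (q : ℂ) = t) ∨
            (t * θ ∈ Lt ∧ t * l ∈ Lt ∧ ¬ IsAlgebraic ℚ t)} ⊆ (fun b => toI K b) '' X := by
    rintro I ⟨⟨hI, hIB⟩, l, hl, θ, hθ, hθ0, t, ht⟩
    obtain ⟨b, rfl⟩ := exists_toI K I hI
    refine ⟨b, ?_, rfl⟩
    rw [hX]
    refine ⟨(hS B b).2 hIB, ?_⟩
    rcases ht with ⟨ha, hb, hq⟩ | ⟨ha, hb, hc⟩
    · by_cases hl0 : l = 0
      · obtain ⟨t', h3, h4⟩ := exists_trans hθ0
        refine key b l θ t' hl hθ hθ0 h3 ?_ h4
        rw [hl0, mul_zero]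
        exact Lt.zero_mem
      · refine key b l θ t hl hθ hθ0 (Submodule.subset_span (Or.inr ha))
          (Submodule.subset_span (Or.inr hb)) fun htal => hq ?_
        refine MP60829e.ZB.rat_of_alg hl0 ?_ hb htal
        obtain ⟨m, β, -, -, he⟩ := hl
        rw [he]
        exact isAlgebraic_int K σ β
    · exact key b l θ t hl hθ hθ0 ha hb hc
  have h3 := (Set.ncard_le_ncard hsub (hfin.image _)).trans (Set.ncard_image_le hfin)
  exact_mod_cast h3

end MP60829e.ZK
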