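import Mathlib
import Pool.Agent.Lib.MP_60829e_nt.ZK.OutK
import Pool.Agent.Lib.MP_60829e_nt.ZL.Det
import Pool.Agent.Lib.MP_60829e_nt.ZL.Four

/-! # Theorem ZK: four exponentials and matrices for almost all ideals -/

open Finset NumberField IsDedekindDomain Module

namespace MP60829e.ZK

open MP60829e.ST (Qa Lt)

variable (K : Type) [Field K] [NumberField K] (σ : K →+* ℂ)

/-- Compare `ZL.exponentials` (ZL/Out.lean), `ZL.fourE`, `ZL.badZ_le`. PROOF: `count_fam` for the degree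
one, `log_mem_U`. The unit ideal is exceptional. -/
theorem ideals_four (κ : ℕ) : ∃ C : ℕ, ∀ E : Submodule Qa ℂ, FiniteDimensional Qa E →
    finrank Qa E ≤ κ → ∀ B : ℕ, 16 ≤ B →
      ({I : Ideal (𝓞 K) | (I ≠ ⊥ ∧ Ideal.absNorm I ≤ B) ∧ ∃ l : ℂ, IsLog K σ I l ∧
        ∃ θ ∈ E, θ ≠ 0 ∧ ∃ t : ℂ,
          (IsAlgebraic ℚ (Complex.exp (t * θ)) ∧ IsAlgebraic ℚ (Complex.exp (t * l)) ∧
              ¬ ∃ q : ℚ, (q : ℂ) = t) ∨
            (t * θ ∈ Lt ∧ t * l ∈ Lt ∧ ¬ IsAlgebraic ℚ t)}.ncard : ℝ) ≤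
        C * Real.log (Real.log B) ^ C / Real.log B * B := by
  sorry

/-- Compare `ZL.rows` (ZL/Det.lean). -/
theorem ideals_rows {r n : ℕ} (hrn : r < n) : ∃ C : ℕ, ∀ B : ℕ, 16 ≤ B →
    ({I : Fin r → Fin n → Ideal (𝓞 K) | (∀ i j, I i j ≠ ⊥ ∧ Ideal.absNorm (I i j) ≤ B) ∧
      ∃ l : Fin r → Fin n → ℂ, (∀ i j, IsLog K σ (I i j) (l i j)) ∧
        ∃ z : Fin n → ℂ, (∀ j, z j ∈ Lt) ∧ ¬ LinearIndependent ℂ (Matrix.vecCons z l) ∧
          ¬ ∃ a : Fin r → Qa, ∀ j, z j = ∑ i, (a i : ℂ) * l i j}.ncard : ℝ) ≤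
      C * Real.log (Real.log B) ^ C / Real.log B * B ^ (r * n) := by
  sorry

end MP60829e.ZK
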